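import Pool.Agent.helper47.EIF.Spec

/-!
# Project eif, row ASM: the numbers
-/

set_option autoImplicit false

open Finset

namespace Pool.Agent.EIF

private theorem ASM_T1 {P κ ε n C I h : ℝ} {k : ℕ} (hk : 0 < k) (hP : 1 < P) (hκε : 6 * κ ≤ ε)
    (hn : 0 ≤ n) (hC : 0 < C) (hI : I ≤ P ^ κ) (hh : 0 ≤ h)
    (h1 : P ^ (1 - 1 / (2 * (k : ℝ)) + ε) ≤ n) :
    I * (2 * (C * P ^ κ * h * P ^ (-(1 / (4 * (k : ℝ))))) * (P * Real.sqrt n)) ≤
      h * Real.sqrt P * (2 * C * P ^ (-κ) * n) := by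
  have hP0 : 0 < P := by linarith
  have hk0 : (0 : ℝ) < k := by exact_mod_cast hk
  have hs : P ^ (1 / 2 - 1 / (4 * (k : ℝ)) + ε / 2) ≤ Real.sqrt n := by
    have e : P ^ (1 / 2 - 1 / (4 * (k : ℝ)) + ε / 2) = Real.sqrt (P ^ (1 - 1 / (2 * (k : ℝ)) + ε)) := by
      rw [Real.sqrt_eq_rpow, ← Real.rpow_mul hP0.le]
      congr 1
      field_simp
      ring
    rw [e]
    exact Real.sqrt_le_sqrt h1
  have hsn : Real.sqrt n * Real.sqrt n = n := Real.mul_self_sqrt hn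
  have key : P ^ κ * P ^ κ * P ^ (-(1 / (4 * (k : ℝ)))) * P ≤ Real.sqrt P * (P ^ (-κ) * Real.sqrt n) := by
    have e1 : P ^ κ * P ^ κ * P ^ (-(1 / (4 * (k : ℝ)))) * P = P ^ (2 * κ - 1 / (4 * (k : ℝ)) + 1) := by
      rw [← Real.rpow_add hP0, ← Real.rpow_add hP0]
      nth_rewrite 2 [← Real.rpow_one P]
      rw [← Real.rpow_add hP0]
      congr 1
      ring
    have e2 : P ^ (2 * κ - 1 / (4 * (k : ℝ)) + 1) ≤
        Real.sqrt P * (P ^ (-κ) * P ^ (1 / 2 - 1 / (4 * (k : ℝ)) + ε / 2)) := by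
      rw [Real.sqrt_eq_rpow, ← Real.rpow_add hP0, ← Real.rpow_add hP0]
      exact Real.rpow_le_rpow_of_exponent_le hP.le (by linarith)
    rw [e1]
    refine e2.trans ?_
    exact mul_le_mul_of_nonneg_left (mul_le_mul_of_nonneg_left hs (by positivity)) (by positivity)
  calc I * (2 * (C * P ^ κ * h * P ^ (-(1 / (4 * (k : ℝ))))) * (P * Real.sqrt n))
      ≤ P ^ κ * (2 * (C * P ^ κ * h * P ^ (-(1 / (4 * (k : ℝ))))) * (P * Real.sqrt n)) :=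
        mul_le_mul_of_nonneg_right hI (by positivity)
    _ = (2 * C * h * Real.sqrt n) * (P ^ κ * P ^ κ * P ^ (-(1 / (4 * (k : ℝ)))) * P) := by ring
    _ ≤ (2 * C * h * Real.sqrt n) * (Real.sqrt P * (P ^ (-κ) * Real.sqrt n)) :=
        mul_le_mul_of_nonneg_left key (by positivity)
    _ = h * Real.sqrt P * (2 * C * P ^ (-κ) * (Real.sqrt n * Real.sqrt n)) := by ring
    _ = _ := by rw [hsn]

private theorem ASM_Z {P κ ε n h N E : ℝ} {k : ℕ} (hk : 0 < k) (hP : 1 < P)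
    (hn : 0 ≤ n) (hh : 0 < h) (hN : 0 < N) (hE : 0 ≤ E) (hhN : P ^ (1 - κ) ≤ 2 * N * h)
    (h2 : N * E * P ^ ((k : ℝ) - 3 / 2 + 1 / (2 * (k : ℝ)) + ε) ≤ n ^ (k + 1)) :
    (P ^ (1 / 2 + 1 / (2 * (k : ℝ))) / h) ^ (1 / (2 * (k : ℝ))) *
      ((P * Real.sqrt n) ^ (1 - 1 / (k : ℝ)) * (P * E) ^ (1 / (2 * (k : ℝ)))) ≤
        2 * (Real.sqrt P * (P ^ ((κ - ε) / (2 * (k : ℝ))) * n)) := by
  have hP0 : 0 < P := by linarith
  have hk0 : (0 : ℝ) < k := by exact_mod_cast hk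
  have hkk : (1 : ℝ) ≤ k := by exact_mod_cast hk
  refine le_of_pow_le_pow_left₀ (n := 2 * k) (by omega) (by positivity) ?_
  have pw : ∀ x : ℝ, 0 ≤ x → (x ^ (1 / (2 * (k : ℝ)))) ^ (2 * k) = x := by
    intro x hx
    rw [← Real.rpow_natCast, ← Real.rpow_mul hx]
    have : 1 / (2 * (k : ℝ)) * ((2 * k : ℕ) : ℝ) = 1 := by
      push_cast
      field_simp
    rw [this, Real.rpow_one]
  have pw2 : ((P * Real.sqrt n) ^ (1 - 1 / (k : ℝ))) ^ (2 * k) = (P * Real.sqrt n) ^ (2 * (k - 1)) := by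
    rw [← Real.rpow_natCast, ← Real.rpow_mul (by positivity), ← Real.rpow_natCast]
    congr 1
    push_cast [Nat.cast_sub hk]
    field_simp
  have e1 : (Real.sqrt P) ^ (2 * k) = P ^ k := by
    rw [pow_mul, Real.sq_sqrt hP0.le]
  have e2 : (P ^ ((κ - ε) / (2 * (k : ℝ)))) ^ (2 * k) = P ^ (κ - ε) := by
    rw [← Real.rpow_natCast, ← Real.rpow_mul hP0.le]
    congr 1
    push_cast
    field_simp
  have e3 : (P * Real.sqrt n) ^ (2 * (k - 1)) = P ^ (2 * (k - 1)) * n ^ (k - 1) := by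
    rw [mul_pow, pow_mul (Real.sqrt n), Real.sq_sqrt hn]
  have eL : ((P ^ (1 / 2 + 1 / (2 * (k : ℝ))) / h) ^ (1 / (2 * (k : ℝ))) *
      ((P * Real.sqrt n) ^ (1 - 1 / (k : ℝ)) * (P * E) ^ (1 / (2 * (k : ℝ))))) ^ (2 * k) =
      P ^ (1 / 2 + 1 / (2 * (k : ℝ))) / h * (P ^ (2 * (k - 1)) * n ^ (k - 1) * (P * E)) := by
    rw [mul_pow, mul_pow, pw _ (by positivity), pw _ (by positivity), pw2, e3]
  have eR : (2 * (Real.sqrt P * (P ^ ((κ - ε) / (2 * (k : ℝ))) * n))) ^ (2 * k) =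
      2 ^ (2 * k) * (P ^ k * (P ^ (κ - ε) * n ^ (2 * k))) := by
    rw [mul_pow, mul_pow, mul_pow, e1, e2]
  rw [eL, eR]
  have hdiv : P ^ (1 / 2 + 1 / (2 * (k : ℝ))) / h ≤
      P ^ (1 / 2 + 1 / (2 * (k : ℝ))) * (2 * N * P ^ (κ - 1)) := by
    rw [div_le_iff₀ hh]
    have : P ^ (κ - 1) * P ^ (1 - κ) = 1 := by
      rw [← Real.rpow_add hP0]
      simp
    calc P ^ (1 / 2 + 1 / (2 * (k : ℝ))) = P ^ (1 / 2 + 1 / (2 * (k : ℝ))) * (P ^ (κ - 1) * P ^ (1 - κ)) := by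
          rw [this, mul_one]
      _ ≤ P ^ (1 / 2 + 1 / (2 * (k : ℝ))) * (P ^ (κ - 1) * (2 * N * h)) := by gcongr
      _ = _ := by ring
  have e4 : P ^ (1 / 2 + 1 / (2 * (k : ℝ))) * P ^ (κ - 1) * P ^ (2 * (k - 1)) * P =
      P ^ ((k : ℝ) - 3 / 2 + 1 / (2 * (k : ℝ)) + ε) * (P ^ k * P ^ (κ - ε)) := by
    have a1 : P ^ (2 * (k - 1)) = P ^ (2 * (k : ℝ) - 2) := by
      rw [← Real.rpow_natCast]
      congr 1
      push_cast [Nat.cast_sub hk]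
      ring
    have a2 : P ^ k = P ^ (k : ℝ) := (Real.rpow_natCast P k).symm
    rw [a1, a2]
    nth_rewrite 4 [← Real.rpow_one P]
    rw [← Real.rpow_add hP0, ← Real.rpow_add hP0, ← Real.rpow_add hP0, ← Real.rpow_add hP0, ← Real.rpow_add hP0]
    congr 1
    ring
  have hpow : n ^ (k + 1) * n ^ (k - 1) = n ^ (2 * k) := by
    rw [← pow_add]
    congr 1
    omega
  calc P ^ (1 / 2 + 1 / (2 * (k : ℝ))) / h * (P ^ (2 * (k - 1)) * n ^ (k - 1) * (P * E))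
      ≤ P ^ (1 / 2 + 1 / (2 * (k : ℝ))) * (2 * N * P ^ (κ - 1)) * (P ^ (2 * (k - 1)) * n ^ (k - 1) * (P * E)) :=
        mul_le_mul_of_nonneg_right hdiv (by positivity)
    _ = 2 * (N * E * n ^ (k - 1)) * (P ^ (1 / 2 + 1 / (2 * (k : ℝ))) * P ^ (κ - 1) * P ^ (2 * (k - 1)) * P) := by
        ring
    _ = 2 * (N * E * n ^ (k - 1)) * (P ^ ((k : ℝ) - 3 / 2 + 1 / (2 * (k : ℝ)) + ε) * (P ^ k * P ^ (κ - ε))) := by
        rw [e4]
    _ = 2 * (N * E * P ^ ((k : ℝ) - 3 / 2 + 1 / (2 * (k : ℝ)) + ε)) * (n ^ (k - 1) * (P ^ k * P ^ (κ - ε))) := by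
        ring
    _ ≤ 2 * n ^ (k + 1) * (n ^ (k - 1) * (P ^ k * P ^ (κ - ε))) := by gcongr
    _ = 2 * (P ^ k * (P ^ (κ - ε) * (n ^ (k + 1) * n ^ (k - 1)))) := by ring
    _ = 2 * (P ^ k * (P ^ (κ - ε) * n ^ (2 * k))) := by rw [hpow]
    _ ≤ 2 ^ (2 * k) * (P ^ k * (P ^ (κ - ε) * n ^ (2 * k))) := by
        refine mul_le_mul_of_nonneg_right ?_ (by positivity)
        calc (2 : ℝ) = 2 ^ 1 := by norm_num
          _ ≤ 2 ^ (2 * k) := pow_le_pow_right₀ (by norm_num) (by omega)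

private theorem ASM_T2 {P κ ε n C I h N E : ℝ} {k : ℕ} (hk : 0 < k) (hP : 1 < P) (hκ : 0 < κ)
    (hκε : 16 * (k : ℝ) * κ ≤ ε)
    (hn : 0 ≤ n) (hC : 0 < C) (hI : I ≤ P ^ κ) (hh : 0 < h) (hN : 0 < N) (hE : 0 ≤ E)
    (hhN : P ^ (1 - κ) ≤ 2 * N * h)
    (h2 : N * E * P ^ ((k : ℝ) - 3 / 2 + 1 / (2 * (k : ℝ)) + ε) ≤ n ^ (k + 1)) :
    I * (4 * (C * P ^ κ * h * (P ^ (1 / 2 + 1 / (2 * (k : ℝ))) / h) ^ (1 / (2 * (k : ℝ)))) *
      ((P * Real.sqrt n) ^ (1 - 1 / (k : ℝ)) * (P * E) ^ (1 / (2 * (k : ℝ))))) ≤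
        h * Real.sqrt P * (8 * C * P ^ (-κ) * n) := by
  have hP0 : 0 < P := by linarith
  have hk0 : (0 : ℝ) < k := by exact_mod_cast hk
  have hkk : (1 : ℝ) ≤ k := by exact_mod_cast hk
  have hZ := ASM_Z (κ := κ) hk hP hn hh hN hE hhN h2
  set Z := (P ^ (1 / 2 + 1 / (2 * (k : ℝ))) / h) ^ (1 / (2 * (k : ℝ))) *
      ((P * Real.sqrt n) ^ (1 - 1 / (k : ℝ)) * (P * E) ^ (1 / (2 * (k : ℝ)))) with hZdef
  have hZ0 : 0 ≤ Z := by positivity
  have hexp : P ^ κ * P ^ κ * P ^ ((κ - ε) / (2 * (k : ℝ))) ≤ P ^ (-κ) := by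
    rw [← Real.rpow_add hP0, ← Real.rpow_add hP0]
    refine Real.rpow_le_rpow_of_exponent_le hP.le ?_
    have h3 : (κ - ε) / (2 * (k : ℝ)) ≤ -(3 * κ) := by
      rw [div_le_iff₀ (by positivity)]
      nlinarith [mul_le_mul_of_nonneg_right hkk hκ.le]
    linarith
  calc I * (4 * (C * P ^ κ * h * (P ^ (1 / 2 + 1 / (2 * (k : ℝ))) / h) ^ (1 / (2 * (k : ℝ)))) *
      ((P * Real.sqrt n) ^ (1 - 1 / (k : ℝ)) * (P * E) ^ (1 / (2 * (k : ℝ)))))
      = I * (4 * C * P ^ κ * h * Z) := by rw [hZdef]; ring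
    _ ≤ P ^ κ * (4 * C * P ^ κ * h * (2 * (Real.sqrt P * (P ^ ((κ - ε) / (2 * (k : ℝ))) * n)))) := by
        gcongr
    _ = h * Real.sqrt P * (8 * C * (P ^ κ * P ^ κ * P ^ ((κ - ε) / (2 * (k : ℝ)))) * n) := by ring
    _ ≤ _ := by gcongr

/-- logarithms -/
private theorem ASM_log {p : ℕ} {κ : ℝ} (hp : 1 < p) (hκ : 0 < κ) (hb : 8 / κ + 2 ≤ (p : ℝ) ^ (κ / 2)) :
    ∃ I : ℕ, (p : ℝ) ^ 2 ≤ 2 ^ I ∧ (I : ℝ) ≤ (p : ℝ) ^ κ := by
  refine ⟨2 * (Nat.log 2 p + 1), ?_, ?_⟩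
  · have h1 : p < 2 ^ (Nat.log 2 p + 1) := Nat.lt_pow_succ_log_self (by norm_num) p
    have h2 : (p : ℝ) ≤ 2 ^ (Nat.log 2 p + 1) := by exact_mod_cast h1.le
    calc (p : ℝ) ^ 2 ≤ ((2 : ℝ) ^ (Nat.log 2 p + 1)) ^ 2 := by gcongr
      _ = _ := by rw [← pow_mul, mul_comm 2]
  · have hP1 : (1 : ℝ) < p := by exact_mod_cast hp
    have hP0 : (0 : ℝ) < p := by linarith
    have h1 : (Nat.log 2 p : ℝ) * Real.log 2 ≤ Real.log p := by
      have : (2 : ℝ) ^ (Nat.log 2 p) ≤ p := by exact_mod_cast Nat.pow_log_le_self 2 (by omega)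
      have h3 := Real.log_le_log (by positivity) this
      rwa [Real.log_pow] at h3
    have h2 : Real.log p ≤ (p : ℝ) ^ (κ / 2) / (κ / 2) := Real.log_le_rpow_div hP0.le (by positivity)
    have hl2 : (1 : ℝ) / 2 ≤ Real.log 2 := by linarith [Real.log_two_gt_d9]
    have h4 : (Nat.log 2 p : ℝ) ≤ 2 * Real.log p := by
      have : (Nat.log 2 p : ℝ) * (1 / 2) ≤ (Nat.log 2 p : ℝ) * Real.log 2 :=
        mul_le_mul_of_nonneg_left hl2 (by positivity)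
      linarith
    have h5 : (1 : ℝ) ≤ (p : ℝ) ^ (κ / 2) := Real.one_le_rpow hP1.le (by positivity)
    have h6 : (p : ℝ) ^ κ = (p : ℝ) ^ (κ / 2) * (p : ℝ) ^ (κ / 2) := by
      rw [← Real.rpow_add hP0]
      congr 1
      ring
    push_cast
    calc 2 * ((Nat.log 2 p : ℝ) + 1) ≤ 2 * (2 * ((p : ℝ) ^ (κ / 2) / (κ / 2)) + 1) := by linarith
      _ = (8 / κ) * (p : ℝ) ^ (κ / 2) + 2 := by
          field_simp
          ring
      _ ≤ (8 / κ + 2) * (p : ℝ) ^ (κ / 2) := by linarith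
      _ ≤ (p : ℝ) ^ (κ / 2) * (p : ℝ) ^ (κ / 2) := by gcongr
      _ = _ := h6.symm

theorem ASM (hWSL : WSL_stmt) (hEXA : EXA_stmt) (hPLE : PLE_stmt) (hLEV : LEV_stmt) : ASM_stmt := by
  intro k hk ε hε
  have hk0 : (0 : ℝ) < k := by exact_mod_cast hk
  have hkk : (1 : ℝ) ≤ k := by exact_mod_cast hk
  set κ : ℝ := min ε 1 / (16 * (k : ℝ)) with hκdef
  have hm0 : 0 < min ε 1 := lt_min hε one_pos
  have hκ : 0 < κ := by positivity
  have h16 : 16 * (k : ℝ) * κ = min ε 1 := by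
    rw [hκdef]
    field_simp
  have hκε : 16 * (k : ℝ) * κ ≤ ε := h16.le.trans (min_le_left _ _)
  have hκk : κ ≤ (k : ℝ) * κ := le_mul_of_one_le_left hκ.le hkk
  have hκ1 : 16 * κ ≤ 1 := by
    have := h16.le.trans (min_le_right ε 1)
    linarith
  obtain ⟨C, p₁, hC, hW⟩ := hWSL k hk κ hκ
  set b : ℝ := 10 * C + 8 / κ + 100 with hb
  have hb100 : 100 ≤ b := by
    rw [hb]
    have : 0 < 8 / κ := by positivity
    linarith
  refine ⟨κ / 2, max p₁ ⌈b ^ (2 / κ)⌉₊, by positivity, ?_⟩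
  intro p _ hp N A B hN hA hB hi hii χ hχ α β hα hβ
  have hpp : p.Prime := Fact.out
  have hp1 : p₁ < p := (le_max_left _ _).trans_lt hp
  have hp2 : b ^ (2 / κ) ≤ p := by
    have h1 : (⌈b ^ (2 / κ)⌉₊ : ℝ) ≤ p := by exact_mod_cast ((le_max_right _ _).trans_lt hp).le
    exact (Nat.le_ceil _).trans h1
  have hP1 : (1 : ℝ) < p := by exact_mod_cast hpp.one_lt
  have hP0 : (0 : ℝ) < p := by linarith
  have hbP : b ≤ (p : ℝ) ^ (κ / 2) := by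
    have h1 : (b ^ (2 / κ)) ^ (κ / 2) ≤ (p : ℝ) ^ (κ / 2) :=
      Real.rpow_le_rpow (by positivity) hp2 (by positivity)
    have h2 : (b ^ (2 / κ)) ^ (κ / 2) = b := by
      rw [← Real.rpow_mul (by linarith)]
      have : 2 / κ * (κ / 2) = 1 := by field_simp
      rw [this, Real.rpow_one]
    rwa [h2] at h1
  have hPκ2 : (p : ℝ) ^ (κ / 2) * (p : ℝ) ^ (κ / 2) = (p : ℝ) ^ κ := by
    rw [← Real.rpow_add hP0]
    congr 1
    ring
  have hPκ : b ≤ (p : ℝ) ^ κ := by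
    rw [← hPκ2]
    nlinarith
  set n : ℝ := (A.card : ℝ) * B.card with hn
  have hn0 : 0 ≤ n := by positivity
  -- `N ≥ 1`
  have hN1 : 1 ≤ N := by
    by_contra h0
    have h0' : N = 0 := by omega
    subst h0'
    have hc : ∀ S : Finset (ZMod p), (∀ a ∈ S, a.valMinAbs.natAbs ≤ 0) → (S.card : ℝ) ≤ 1 := by
      intro S hS
      have : S ⊆ {0} := by
        intro a ha
        have h1 := hS a ha
        have h2 : a.valMinAbs = 0 := by omega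
        rw [ZMod.valMinAbs_eq_zero] at h2
        simp [h2]
      have h3 := Finset.card_le_card this
      rw [Finset.card_singleton] at h3
      exact_mod_cast h3
    have h1 := hc A hA
    have h2 := hc B hB
    have h3 : n ≤ 1 := by
      rw [hn]
      calc (A.card : ℝ) * B.card ≤ 1 * 1 := by gcongr
        _ = 1 := one_mul 1
    have h4 : (1 : ℝ) < (p : ℝ) ^ (1 - 1 / (2 * (k : ℝ)) + ε) := by
      refine Real.one_lt_rpow hP1 ?_
      have : 1 / (2 * (k : ℝ)) ≤ 1 / 2 := by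
        rw [div_le_div_iff₀ (by positivity) (by norm_num)]
        linarith
      linarith
    linarith
  have hNr : (1 : ℝ) ≤ N := by exact_mod_cast hN1
  have hNr0 : (0 : ℝ) < N := by linarith
  -- the length `h`
  set H : ℝ := (p : ℝ) ^ (1 - κ) / N with hH
  have hH0 : 0 < H := by positivity
  set h : ℕ := ⌊H⌋₊ with hh
  have hHbig : 8 * (p : ℝ) ^ (1 / (2 * (k : ℝ))) ≤ H := by
    rw [hH, le_div_iff₀ hNr0]
    have e1 : (p : ℝ) ^ (1 - κ) = (p : ℝ) ^ (ε - κ) * (p : ℝ) ^ (1 / (2 * (k : ℝ))) *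
        (p : ℝ) ^ (1 - 1 / (2 * (k : ℝ)) - ε) := by
      rw [← Real.rpow_add hP0, ← Real.rpow_add hP0]
      congr 1
      ring
    have e2 : (8 : ℝ) ≤ (p : ℝ) ^ (ε - κ) := by
      have h1 : (p : ℝ) ^ κ ≤ (p : ℝ) ^ (ε - κ) :=
        Real.rpow_le_rpow_of_exponent_le hP1.le (by linarith)
      linarith
    rw [e1]
    gcongr
  have hone : (1 : ℝ) ≤ (p : ℝ) ^ (1 / (2 * (k : ℝ))) := Real.one_le_rpow hP1.le (by positivity)
  have hhH : (h : ℝ) ≤ H := Nat.floor_le hH0.le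
  have hHh : H ≤ 2 * h := by
    have h1 : H < (h : ℝ) + 1 := Nat.lt_floor_add_one H
    have h2 : (1 : ℝ) ≤ h := by linarith
    linarith
  have h4 : 4 * (p : ℝ) ^ (1 / (2 * (k : ℝ))) ≤ h := by linarith
  have hh0 : (0 : ℝ) < h := by linarith
  have hhn : 0 < h := by exact_mod_cast hh0
  have hhN : (h : ℝ) * N ≤ (p : ℝ) ^ (1 - κ) := by
    calc (h : ℝ) * N ≤ H * N := by gcongr
      _ = _ := by
        rw [hH]
        field_simp
  have hNh : (p : ℝ) ^ (1 - κ) ≤ 2 * N * h := by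
    have h1 : (p : ℝ) ^ (1 - κ) = H * N := by
      rw [hH]
      field_simp
    rw [h1]
    calc H * N ≤ (2 * h) * N := by gcongr
      _ = _ := by ring
  have hPm : (p : ℝ) ^ (1 - κ) * (p : ℝ) ^ κ = p := by
    rw [← Real.rpow_add hP0]
    have : 1 - κ + κ = 1 := by ring
    rw [this, Real.rpow_one]
  have h48 : 48 * h ≤ p := by
    have h1 : (48 : ℝ) * h ≤ p := by
      calc (48 : ℝ) * h = h * 48 := by ring
        _ ≤ (p : ℝ) ^ (1 - κ) * (p : ℝ) ^ κ := by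
          refine mul_le_mul ?_ (by linarith) (by norm_num) (by positivity)
          calc (h : ℝ) = h * 1 := by ring
            _ ≤ h * N := by gcongr
            _ ≤ _ := hhN
        _ = p := hPm
    exact_mod_cast h1
  obtain ⟨I, hI1, hI2⟩ := ASM_log hpp.one_lt hκ (by rw [hb] at hbP; linarith)
  -- the four rows
  have hχ' : χ⁻¹ ≠ 1 := inv_ne_one.2 hχ
  have hX := hEXA p χ hχ h N A B α β hhn hA hB hα hβ
  obtain ⟨hG1, hG2, hG3⟩ := hPLE p A B α β hα hβ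
  set c₁ : ℝ := C * (p : ℝ) ^ κ * h * (p : ℝ) ^ (-(1 / (4 * (k : ℝ)))) with hc1
  set c₂ : ℝ := C * (p : ℝ) ^ κ * h * ((p : ℝ) ^ (1 / 2 + 1 / (2 * (k : ℝ))) / h) ^ (1 / (2 * (k : ℝ))) with hc2
  have hWS : ∀ S : Finset (ZMod p), S.Nonempty →
      ∑ t ∈ S, Wc χ⁻¹ h t ≤ c₁ * S.card + c₂ * (S.card : ℝ) ^ (1 - 1 / (2 * (k : ℝ))) := by
    intro S hS
    have hs0 : (0 : ℝ) < S.card := by exact_mod_cast hS.card_pos
    refine (hW p hp1 χ⁻¹ hχ' h S h4 h48).trans (le_of_eq ?_)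
    have e1 : (p : ℝ) ^ (1 / 2 + 1 / (2 * (k : ℝ))) / (h * S.card) =
        (p : ℝ) ^ (1 / 2 + 1 / (2 * (k : ℝ))) / h * (S.card : ℝ)⁻¹ := by
      field_simp
    have e2 : (S.card : ℝ) ^ (1 - 1 / (2 * (k : ℝ))) = S.card * ((S.card : ℝ)⁻¹) ^ (1 / (2 * (k : ℝ))) := by
      rw [Real.inv_rpow hs0.le, ← Real.rpow_neg hs0.le]
      nth_rewrite 2 [← Real.rpow_one (S.card : ℝ)]
      rw [← Real.rpow_add hs0]
      congr 1
    rw [e1, Real.mul_rpow (by positivity) (by positivity), e2, hc1, hc2]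
    ring
  have hL := hLEV p (fun t => ‖Pool.Agent.SPI.ft A α t‖ * ‖Pool.Agent.SPI.ft B β t‖) (Wc χ⁻¹ h) k I h c₁ c₂
    (p * Real.sqrt (A.card * B.card)) (p * (A.addEnergy B : ℝ)) (A.card * B.card) hk (by positivity)
    (by positivity) (by positivity) (by positivity) (fun t => by positivity) hG2
    (fun t => norm_nonneg _) (fun t => ?_) hG1 hG3 hWS
  swap
  · refine (norm_sum_le _ _).trans ?_
    refine (Finset.sum_le_card_nsmul _ _ 1 fun v _ => ?_).trans (by simp)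
    exact DirichletCharacter.norm_le_one _ _
  rw [← hn] at hL hX
  set E : ℝ := (A.addEnergy B : ℝ) with hE
  have hE0 : 0 ≤ E := by positivity
  have hT1 := ASM_T1 (I := (I : ℝ)) (h := (h : ℝ)) (C := C) hk hP1 (by linarith : 6 * κ ≤ ε) hn0 hC hI2 hh0.le hi
  have hT2 := ASM_T2 (I := (I : ℝ)) (h := (h : ℝ)) (C := C) hk hP1 hκ hκε hn0 hC hI2 hh0 hNr0 hE0 hNh hii
  have hT3 : n / 2 ^ I * (p * h) ≤ h * Real.sqrt p * ((p : ℝ) ^ (-κ) * n) := by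
    have h1 : n / 2 ^ I ≤ n / (p : ℝ) ^ 2 := by gcongr
    have h2 : (1 : ℝ) ≤ Real.sqrt p := by
      rw [Real.one_le_sqrt]
      exact hP1.le
    have h3 : (p : ℝ) ^ (-(1 : ℝ)) ≤ (p : ℝ) ^ (-κ) :=
      Real.rpow_le_rpow_of_exponent_le hP1.le (by linarith)
    calc n / 2 ^ I * (p * h) ≤ n / (p : ℝ) ^ 2 * (p * h) := by gcongr
      _ = h * 1 * ((p : ℝ) ^ (-(1 : ℝ)) * n) := by
        rw [Real.rpow_neg_one]
        field_simp
      _ ≤ _ := by gcongr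
  have hT4 : 4 * Real.pi * h * N / p * n ≤ 13 * (p : ℝ) ^ (-κ) * n := by
    refine mul_le_mul_of_nonneg_right ?_ hn0
    rw [div_le_iff₀ hP0]
    have h1 : (p : ℝ) ^ (-κ) * p = (p : ℝ) ^ (1 - κ) := by
      nth_rewrite 2 [← Real.rpow_one (p : ℝ)]
      rw [← Real.rpow_add hP0]
      congr 1
      ring
    have h2 : Real.pi ≤ 13 / 4 := by
      have := Real.pi_lt_d2
      linarith
    calc 4 * Real.pi * h * N = 4 * Real.pi * (h * N) := by ring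
      _ ≤ 4 * (13 / 4) * (p : ℝ) ^ (1 - κ) := by gcongr
      _ = 13 * ((p : ℝ) ^ (-κ) * p) := by
        rw [h1]
        ring
      _ = _ := by ring
  have hsum : h * Real.sqrt p * ‖∑ a ∈ A, ∑ b ∈ B, α a * β b * χ (a + b)‖ ≤
      h * Real.sqrt p * ((10 * C + 14) * (p : ℝ) ^ (-κ) * n) := by
    refine hX.trans ?_
    have h5 : h * Real.sqrt p * (4 * Real.pi * h * N / p * n) ≤ h * Real.sqrt p * (13 * (p : ℝ) ^ (-κ) * n) :=
      mul_le_mul_of_nonneg_left hT4 (by positivity)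
    have h6 : (I : ℝ) * (2 * c₁ * (p * Real.sqrt n) + 4 * c₂ * ((p * Real.sqrt n) ^ (1 - 1 / (k : ℝ)) *
        (p * E) ^ (1 / (2 * (k : ℝ))))) ≤
        h * Real.sqrt p * (2 * C * (p : ℝ) ^ (-κ) * n) + h * Real.sqrt p * (8 * C * (p : ℝ) ^ (-κ) * n) := by
      rw [mul_add]
      exact add_le_add hT1 hT2
    calc _ ≤ (h * Real.sqrt p * (2 * C * (p : ℝ) ^ (-κ) * n) + h * Real.sqrt p * (8 * C * (p : ℝ) ^ (-κ) * n) +
          h * Real.sqrt p * ((p : ℝ) ^ (-κ) * n)) + h * Real.sqrt p * (13 * (p : ℝ) ^ (-κ) * n) :=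
          add_le_add (hL.trans (add_le_add h6 hT3)) h5
      _ = _ := by ring
  have hfin := le_of_mul_le_mul_left hsum (by positivity)
  refine hfin.trans ?_
  refine mul_le_mul_of_nonneg_right ?_ hn0
  have e1 : (p : ℝ) ^ (-(κ / 2)) = (p : ℝ) ^ (κ / 2) * (p : ℝ) ^ (-κ) := by
    rw [← Real.rpow_add hP0]
    congr 1
    ring
  rw [e1]
  refine mul_le_mul_of_nonneg_right ?_ (by positivity)
  have : 0 < 8 / κ := by positivity
  rw [hb] at hbP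
  linarith

end Pool.Agent.EIF
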