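import Pool.Agent.helper47.EIF.MOX
import Pool.Agent.helper1.EIF.PLE
import Pool.Agent.helper48.SPI.GSI
import Pool.Agent.helper98.SPI.PLN

/-!
# Project eif: all subsets of an interval
-/

set_option autoImplicit false

open Finset

namespace Pool.Agent.EIF

private theorem COR_cast {p N : ℕ} (h : N ≤ p) {x y : ℕ} (hx : x < N) (hy : y < N)
    (e : (x : ZMod p) = (y : ZMod p)) : x = y := by
  rw [ZMod.natCast_eq_natCast_iff] at e
  exact Nat.ModEq.eq_of_lt_of_lt e (by omega) (by omega)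

/-- `E(X,Y) ≤ |X|² |Y|` -/
private theorem COR_E (X Y : Finset ℕ) : X.addEnergy Y ≤ X.card * X.card * Y.card := by
  have h : ((X ×ˢ X) ×ˢ Y).card = X.card * X.card * Y.card := by
    rw [card_product, card_product]
  rw [← h]
  unfold Finset.addEnergy
  refine card_le_card_of_injOn (fun q : (ℕ × ℕ) × ℕ × ℕ => (q.1, q.2.1)) ?_ ?_
  · intro q hq
    obtain ⟨⟨x₁, x₂⟩, y₁, y₂⟩ := q
    simp only [coe_filter, mem_product, Set.mem_setOf_eq] at hq
    simp only [coe_product, Set.mem_prod, mem_coe]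
    exact ⟨hq.1.1, hq.1.2.1⟩
  · intro q hq q' hq' e
    obtain ⟨⟨x₁, x₂⟩, y₁, y₂⟩ := q
    obtain ⟨⟨x₁', x₂'⟩, y₁', y₂'⟩ := q'
    simp only [coe_filter, mem_product, Set.mem_setOf_eq] at hq hq'
    simp only [Prod.mk.injEq] at e ⊢
    have h1 := hq.2
    have h2 := hq'.2
    obtain ⟨⟨a1, a2⟩, a3⟩ := e
    refine ⟨⟨a1, a2⟩, a3, ?_⟩
    omega

private theorem COR_E2 (X Y : Finset ℕ) :
    (X.addEnergy Y : ℝ) ≤ ((X.card : ℝ) * Y.card) ^ (3 / 2 : ℝ) := by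
  have h1 : (X.addEnergy Y : ℝ) ≤ X.card * X.card * Y.card := by exact_mod_cast COR_E X Y
  have h2 : (X.addEnergy Y : ℝ) ≤ Y.card * Y.card * X.card := by
    rw [Finset.addEnergy_comm]
    exact_mod_cast COR_E Y X
  have h0 : (0 : ℝ) ≤ X.addEnergy Y := by positivity
  have h3 : (X.addEnergy Y : ℝ) ^ 2 ≤ ((X.card : ℝ) * Y.card) ^ 3 := by
    calc (X.addEnergy Y : ℝ) ^ 2 = (X.addEnergy Y : ℝ) * X.addEnergy Y := sq _
      _ ≤ (X.card * X.card * Y.card) * (Y.card * Y.card * X.card) := by gcongr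
      _ = _ := by ring
  refine le_of_pow_le_pow_left₀ (n := 2) (by norm_num) (by positivity) (h3.trans (le_of_eq ?_))
  rw [← Real.rpow_natCast, ← Real.rpow_natCast, ← Real.rpow_mul (by positivity)]
  norm_num

/-- from sums over sets to Moebius images -/
private theorem COR_tr {p N : ℕ} [Fact p.Prime] (hNp : N ≤ p) (X Y : Finset ℕ) (a b c d : ZMod p)
    (hX : X ⊆ range N) (hY : Y ⊆ range N)
    (hcX : ∀ x ∈ X, c * (x : ZMod p) + d ≠ 0) (hcY : ∀ y ∈ Y, c * (y : ZMod p) + d ≠ 0)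
    (χ : MulChar (ZMod p) ℂ) (β : ℕ → ℂ) (hβ : ∀ y, ‖β y‖ ≤ 1) (R : ℝ)
    (hR : ∀ (A B : Finset (ZMod p)) (α β : ZMod p → ℂ), A.card = X.card → B.card = Y.card →
      (∀ a, ‖α a‖ ≤ 1) → (∀ b, ‖β b‖ ≤ 1) →
      ‖∑ a ∈ A, ∑ b ∈ B, α a * β b * χ (a + b)‖ ≤ R) :
    ∑ x ∈ X, ‖∑ y ∈ Y, β y * χ ((a * (x : ZMod p) + b) / (c * (x : ZMod p) + d) -
        (a * (y : ZMod p) + b) / (c * (y : ZMod p) + d))‖ ≤ R := by
  set f : ℕ → ZMod p := fun x => (x : ZMod p) with hf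
  set g : ℕ → ZMod p := fun y => -(y : ZMod p) with hg
  have hfi : Set.InjOn f (X : Set ℕ) := by
    intro x hx y hy e
    exact COR_cast hNp (mem_range.1 (hX hx)) (mem_range.1 (hX hy)) e
  have hgi : Set.InjOn g (Y : Set ℕ) := by
    intro x hx y hy e
    exact COR_cast hNp (mem_range.1 (hY hx)) (mem_range.1 (hY hy)) (neg_injective e)
  have hχ1 : ∀ x : ZMod p, ‖χ⁻¹ x‖ ≤ 1 := fun x => DirichletCharacter.norm_le_one χ⁻¹ x
  choose α hα1 hα2 using fun x : ℕ => Pool.Agent.SPI.MOB_phase (∑ y ∈ Y, β y *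
    χ ((a * (x : ZMod p) + b) / (c * (x : ZMod p) + d) - (a * (y : ZMod p) + b) / (c * (y : ZMod p) + d)))
  have main := hR (X.image f) (Y.image g)
    (fun z => α z.val * χ⁻¹ (c * z + d))
    (fun w => β (-w).val * χ⁻¹ (c * (-w) + d))
    (card_image_of_injOn hfi) (card_image_of_injOn hgi)
    (fun z => by
      rw [norm_mul]
      exact mul_le_one₀ (hα1 _) (norm_nonneg _) (hχ1 _))
    (fun w => by
      rw [norm_mul]
      exact mul_le_one₀ (hβ _) (norm_nonneg _) (hχ1 _))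
  have hv : ∀ x : ℕ, x < N → ((x : ZMod p)).val = x := fun x hx => ZMod.val_natCast_of_lt (by omega)
  have e1 : ((∑ x ∈ X, ‖∑ y ∈ Y, β y * χ ((a * (x : ZMod p) + b) / (c * (x : ZMod p) + d) -
      (a * (y : ZMod p) + b) / (c * (y : ZMod p) + d))‖ : ℝ) : ℂ) = χ (a * d - b * c) *
      ∑ z ∈ X.image f, ∑ w ∈ Y.image g,
        (fun z => α z.val * χ⁻¹ (c * z + d)) z * (fun w => β (-w).val * χ⁻¹ (c * (-w) + d)) w * χ (z + w) := by
    rw [sum_image hfi, Complex.ofReal_sum, mul_sum]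
    refine sum_congr rfl fun x hx => ?_
    rw [sum_image hgi, ← hα2 x, mul_sum, mul_sum]
    refine sum_congr rfl fun y hy => ?_
    rw [Pool.Agent.SPI.MOB_id χ a b c d _ _ (hcX x hx) (hcY y hy)]
    simp only [hf, hg, neg_neg]
    rw [hv x (mem_range.1 (hX hx)), hv y (mem_range.1 (hY hy)), ← sub_eq_add_neg]
    ring
  have e4 : (∑ x ∈ X, ‖∑ y ∈ Y, β y * χ ((a * (x : ZMod p) + b) / (c * (x : ZMod p) + d) -
      (a * (y : ZMod p) + b) / (c * (y : ZMod p) + d))‖ : ℝ) =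
      ‖((∑ x ∈ X, ‖∑ y ∈ Y, β y * χ ((a * (x : ZMod p) + b) / (c * (x : ZMod p) + d) -
      (a * (y : ZMod p) + b) / (c * (y : ZMod p) + d))‖ : ℝ) : ℂ)‖ := by
    rw [Complex.norm_real, Real.norm_of_nonneg (sum_nonneg fun _ _ => norm_nonneg _)]
  rw [e4, e1, norm_mul]
  refine le_trans ?_ main
  exact mul_le_of_le_one_left (norm_nonneg _) (DirichletCharacter.norm_le_one χ _)

/-- the trivial bound -/
private theorem COR_triv {p : ℕ} [Fact p.Prime] (χ : MulChar (ZMod p) ℂ) (hχ : χ ≠ 1) (A B : Finset (ZMod p))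
    (α β : ZMod p → ℂ) (hα : ∀ a, ‖α a‖ ≤ 1) (hβ : ∀ b, ‖β b‖ ≤ 1) :
    ‖∑ a ∈ A, ∑ b ∈ B, α a * β b * χ (a + b)‖ ≤ Real.sqrt p * Real.sqrt (A.card * B.card) := by
  obtain ⟨τ, hτn, hτ⟩ := Pool.Agent.SPI.GSI p χ hχ
  have hp0 : (0 : ℝ) < p := by exact_mod_cast (Fact.out : p.Prime).pos
  have e : τ * ∑ a ∈ A, ∑ b ∈ B, α a * β b * χ (a + b) =
      ∑ t : ZMod p, χ⁻¹ t * (Pool.Agent.SPI.ft A α t * Pool.Agent.SPI.ft B β t) := by
    calc τ * ∑ a ∈ A, ∑ b ∈ B, α a * β b * χ (a + b)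
        = ∑ a ∈ A, ∑ b ∈ B, ∑ t : ZMod p, χ⁻¹ t *
          ((α a * (ZMod.stdAddChar (t * a) : ℂ)) * (β b * (ZMod.stdAddChar (t * b) : ℂ))) := by
          rw [Finset.mul_sum]
          refine Finset.sum_congr rfl fun a _ => ?_
          rw [Finset.mul_sum]
          refine Finset.sum_congr rfl fun b _ => ?_
          have e2 : τ * (α a * β b * χ (a + b)) = α a * β b * (τ * χ (a + b)) := by ring
          rw [e2, hτ, Finset.mul_sum]
          refine Finset.sum_congr rfl fun t _ => ?_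
          rw [mul_add, AddChar.map_add_eq_mul]
          ring
      _ = ∑ a ∈ A, ∑ t : ZMod p, ∑ b ∈ B, χ⁻¹ t *
          ((α a * (ZMod.stdAddChar (t * a) : ℂ)) * (β b * (ZMod.stdAddChar (t * b) : ℂ))) :=
          Finset.sum_congr rfl fun a _ => Finset.sum_comm
      _ = ∑ t : ZMod p, ∑ a ∈ A, ∑ b ∈ B, χ⁻¹ t *
          ((α a * (ZMod.stdAddChar (t * a) : ℂ)) * (β b * (ZMod.stdAddChar (t * b) : ℂ))) := Finset.sum_comm
      _ = _ := by
          refine Finset.sum_congr rfl fun t _ => ?_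
          unfold Pool.Agent.SPI.ft
          rw [Finset.sum_mul_sum, Finset.mul_sum]
          refine Finset.sum_congr rfl fun a _ => ?_
          rw [Finset.mul_sum]
  have h1 := (PLE Pool.Agent.SPI.PLN p A B α β hα hβ).1
  have h2 : Real.sqrt p * ‖∑ a ∈ A, ∑ b ∈ B, α a * β b * χ (a + b)‖ ≤ p * Real.sqrt (A.card * B.card) := by
    rw [← hτn, ← norm_mul, e]
    refine (norm_sum_le _ _).trans (le_trans ?_ h1)
    refine Finset.sum_le_sum fun t _ => ?_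
    rw [norm_mul, norm_mul]
    exact mul_le_of_le_one_left (by positivity) (DirichletCharacter.norm_le_one _ _)
  have hs : Real.sqrt p * Real.sqrt p = p := Real.mul_self_sqrt hp0.le
  have hs0 : 0 < Real.sqrt p := Real.sqrt_pos.2 hp0
  refine le_of_mul_le_mul_left (h2.trans (le_of_eq ?_)) hs0
  rw [← mul_assoc, hs]

def COR_stmt : Prop := ∀ k : ℕ, 0 < k → ∀ ε : ℝ, 0 < ε → ∃ (δ : ℝ) (p₀ : ℕ), 0 < δ ∧
  ∀ (p : ℕ) [Fact p.Prime], p₀ < p → ∀ (N : ℕ) (X Y : Finset ℕ) (a b c d : ZMod p),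
    N ≤ p → X ⊆ range N → Y ⊆ range N → a * d - b * c ≠ 0 →
    (∀ x ∈ X, c * (x : ZMod p) + d ≠ 0) → (∀ y ∈ Y, c * (y : ZMod p) + d ≠ 0) →
    ((p : ℝ) ^ (1 - 1 / (k : ℝ) + ε) * (N : ℝ) ^ (2 / (2 * (k : ℝ) - 1)) ≤ X.card * Y.card ∨
      ((N : ℝ) ≤ (p : ℝ) ^ (1 - 1 / (2 * (k : ℝ)) - ε) ∧
        (p : ℝ) ^ (1 - 1 / (2 * (k : ℝ)) + ε) ≤ X.card * Y.card ∧
        (N : ℝ) * X.addEnergy Y * (p : ℝ) ^ ((k : ℝ) - 3 / 2 + 1 / (2 * (k : ℝ)) + ε) ≤
          ((X.card : ℝ) * Y.card) ^ (k + 1))) →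
    ∀ χ : MulChar (ZMod p) ℂ, χ ≠ 1 → ∀ β : ℕ → ℂ, (∀ y, ‖β y‖ ≤ 1) →
      ∑ x ∈ X, ‖∑ y ∈ Y, β y * χ ((a * (x : ZMod p) + b) / (c * (x : ZMod p) + d) -
        (a * (y : ZMod p) + b) / (c * (y : ZMod p) + d))‖ ≤ (p : ℝ) ^ (-δ) * (X.card * Y.card)

/-- the exponents -/
private theorem COR_num {p N P ε : ℝ} {k : ℕ} (hk : 0 < k) (hε : 0 < ε) (hp : 1 < p) (hN : 1 ≤ N) (hP : 1 ≤ P)
    (hPN : P ≤ N ^ 2) (h : p ^ (1 - 1 / (k : ℝ) + ε) * N ^ (2 / (2 * (k : ℝ) - 1)) ≤ P) :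
    p ^ (1 - 1 / (2 * (k : ℝ)) + ε / 4) ≤ P ∧
      N * P ^ (3 / 2 : ℝ) * p ^ ((k : ℝ) - 3 / 2 + 1 / (2 * (k : ℝ)) + ε / 4) ≤ P ^ (k + 1) := by
  have hp0 : 0 < p := by linarith
  have hN0 : 0 < N := by linarith
  have hP0 : 0 < P := by linarith
  have hk0 : (0 : ℝ) < k := by exact_mod_cast hk
  have hkk : (1 : ℝ) ≤ k := by exact_mod_cast hk
  have h2k : (0 : ℝ) < 2 * k - 1 := by linarith
  -- the main inequality
  set e₀ : ℝ := ε * ((2 * (k : ℝ) - 1) / 2) with he₀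
  have he₀2 : ε / 2 ≤ e₀ := by
    rw [he₀]
    nlinarith
  have h1 : N * p ^ ((k : ℝ) - 3 / 2 + 1 / (2 * (k : ℝ)) + e₀) ≤ P ^ ((2 * (k : ℝ) - 1) / 2) := by
    have h2 : (p ^ (1 - 1 / (k : ℝ) + ε) * N ^ (2 / (2 * (k : ℝ) - 1))) ^ ((2 * (k : ℝ) - 1) / 2) ≤
        P ^ ((2 * (k : ℝ) - 1) / 2) := Real.rpow_le_rpow (by positivity) h (by positivity)
    rw [Real.mul_rpow (by positivity) (by positivity), ← Real.rpow_mul hp0.le, ← Real.rpow_mul hN0.le] at h2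
    have e1 : 2 / (2 * (k : ℝ) - 1) * ((2 * (k : ℝ) - 1) / 2) = 1 := by field_simp
    rw [e1, Real.rpow_one] at h2
    refine le_trans ?_ h2
    rw [mul_comm]
    refine mul_le_mul_of_nonneg_right (le_of_eq ?_) hN0.le
    congr 1
    rw [he₀]
    field_simp
    ring
  constructor
  · -- (i)
    have hNs : P ^ (1 / 2 : ℝ) ≤ N := by
      have : P ^ (1 / 2 : ℝ) ≤ (N ^ 2) ^ (1 / 2 : ℝ) := Real.rpow_le_rpow hP0.le hPN (by norm_num)
      refine this.trans (le_of_eq ?_)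
      rw [← Real.rpow_natCast, ← Real.rpow_mul hN0.le]
      norm_num
    have h3 : p ^ ((k : ℝ) - 3 / 2 + 1 / (2 * (k : ℝ)) + e₀) ≤ P ^ ((k : ℝ) - 1) := by
      have e : P ^ ((2 * (k : ℝ) - 1) / 2) = P ^ (1 / 2 : ℝ) * P ^ ((k : ℝ) - 1) := by
        rw [← Real.rpow_add hP0]
        congr 1
        ring
      rw [e] at h1
      have h4 : P ^ (1 / 2 : ℝ) * p ^ ((k : ℝ) - 3 / 2 + 1 / (2 * (k : ℝ)) + e₀) ≤
          P ^ (1 / 2 : ℝ) * P ^ ((k : ℝ) - 1) := by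
        refine le_trans ?_ h1
        gcongr
      exact le_of_mul_le_mul_left h4 (by positivity)
    rcases Nat.lt_or_ge 1 k with h5 | h5
    · have hk1 : (0 : ℝ) < (k : ℝ) - 1 := by
        have : (1 : ℝ) < k := by exact_mod_cast h5
        linarith
      have h6 : (p ^ ((k : ℝ) - 3 / 2 + 1 / (2 * (k : ℝ)) + e₀)) ^ (1 / ((k : ℝ) - 1)) ≤
          (P ^ ((k : ℝ) - 1)) ^ (1 / ((k : ℝ) - 1)) := Real.rpow_le_rpow (by positivity) h3 (by positivity)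
      rw [← Real.rpow_mul hp0.le, ← Real.rpow_mul hP0.le] at h6
      have e1 : ((k : ℝ) - 1) * (1 / ((k : ℝ) - 1)) = 1 := by field_simp
      rw [e1, Real.rpow_one] at h6
      refine le_trans (Real.rpow_le_rpow_of_exponent_le hp.le ?_) h6
      have e2 : ((k : ℝ) - 3 / 2 + 1 / (2 * (k : ℝ)) + e₀) * (1 / ((k : ℝ) - 1)) =
          1 - 1 / (2 * (k : ℝ)) + e₀ / ((k : ℝ) - 1) := by
        field_simp
        ring
      rw [e2]
      have e3 : ε ≤ e₀ / ((k : ℝ) - 1) := by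
        rw [le_div_iff₀ hk1, he₀]
        nlinarith
      linarith
    · exfalso
      have hk1 : k = 1 := by omega
      subst hk1
      have h6 : (1 : ℝ) < p ^ (((1 : ℕ) : ℝ) - 3 / 2 + 1 / (2 * ((1 : ℕ) : ℝ)) + e₀) := by
        refine Real.one_lt_rpow hp ?_
        push_cast
        linarith
      have h7 : P ^ (((1 : ℕ) : ℝ) - 1) = 1 := by
        norm_num
      rw [h7] at h3
      exact absurd h3 (not_le.2 h6)
  · -- (ii)
    have e1 : P ^ (k + 1) = P ^ (3 / 2 : ℝ) * P ^ ((2 * (k : ℝ) - 1) / 2) := by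
      rw [← Real.rpow_natCast, ← Real.rpow_add hP0]
      congr 1
      push_cast
      ring
    rw [e1]
    calc N * P ^ (3 / 2 : ℝ) * p ^ ((k : ℝ) - 3 / 2 + 1 / (2 * (k : ℝ)) + ε / 4)
        ≤ N * P ^ (3 / 2 : ℝ) * p ^ ((k : ℝ) - 3 / 2 + 1 / (2 * (k : ℝ)) + e₀) := by
          refine mul_le_mul_of_nonneg_left (Real.rpow_le_rpow_of_exponent_le hp.le (by linarith)) (by positivity)
      _ = P ^ (3 / 2 : ℝ) * (N * p ^ ((k : ℝ) - 3 / 2 + 1 / (2 * (k : ℝ)) + e₀)) := by ring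
      _ ≤ _ := mul_le_mul_of_nonneg_left h1 (by positivity)

theorem COR (hMOX : MOX_stmt) : COR_stmt := by
  intro k hk ε hε
  have hk0 : (0 : ℝ) < k := by exact_mod_cast hk
  have hkk : (1 : ℝ) ≤ k := by exact_mod_cast hk
  have h2k : (0 : ℝ) < 2 * k - 1 := by linarith
  obtain ⟨δ₁, p₁, hδ₁, hF₁⟩ := hMOX k hk (ε / 4) (by positivity)
  obtain ⟨δ₂, p₂, hδ₂, hF₂⟩ := hMOX k hk ε hε
  refine ⟨min (min δ₁ δ₂) (ε / 4), max p₁ p₂, lt_min (lt_min hδ₁ hδ₂) (by positivity), ?_⟩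
  intro p _ hp N X Y a b c d hNp hX hY hdet hcX hcY hcond χ hχ β hβ
  have hpp : p.Prime := Fact.out
  have hP1 : (1 : ℝ) < p := by exact_mod_cast hpp.one_lt
  have hP0 : (0 : ℝ) < p := by linarith
  have hp1 : p₁ < p := (le_max_left _ _).trans_lt hp
  have hp2 : p₂ < p := (le_max_right _ _).trans_lt hp
  set δ : ℝ := min (min δ₁ δ₂) (ε / 4) with hδ
  have hd1 : (p : ℝ) ^ (-δ₁) ≤ (p : ℝ) ^ (-δ) :=
    Real.rpow_le_rpow_of_exponent_le hP1.le (neg_le_neg ((min_le_left _ _).trans (min_le_left _ _)))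
  have hd2 : (p : ℝ) ^ (-δ₂) ≤ (p : ℝ) ^ (-δ) :=
    Real.rpow_le_rpow_of_exponent_le hP1.le (neg_le_neg ((min_le_left _ _).trans (min_le_right _ _)))
  have hd3 : (p : ℝ) ^ (-(ε / 4)) ≤ (p : ℝ) ^ (-δ) :=
    Real.rpow_le_rpow_of_exponent_le hP1.le (neg_le_neg (min_le_right _ _))
  rcases hcond with h | ⟨h1, h2, h3⟩
  swap
  · refine (hF₂ p hp2 N X Y a b c d h1 hX hY hdet hcX hcY h2 h3 χ hχ β hβ).trans ?_
    gcongr
  -- the case of all sets
  rcases X.eq_empty_or_nonempty with rfl | hXn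
  · simp
  rcases Y.eq_empty_or_nonempty with rfl | hYn
  · simp
  have hx1 : (1 : ℝ) ≤ X.card := by exact_mod_cast hXn.card_pos
  have hy1 : (1 : ℝ) ≤ Y.card := by exact_mod_cast hYn.card_pos
  have hxN : (X.card : ℝ) ≤ N := by
    have := card_le_card hX
    rw [card_range] at this
    exact_mod_cast this
  have hyN : (Y.card : ℝ) ≤ N := by
    have := card_le_card hY
    rw [card_range] at this
    exact_mod_cast this
  have hN1 : (1 : ℝ) ≤ N := hx1.trans hxN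
  set P : ℝ := (X.card : ℝ) * Y.card with hP
  have hPN : P ≤ (N : ℝ) ^ 2 := by
    rw [hP, sq]
    gcongr
  have hP1' : 1 ≤ P := by
    rw [hP]
    nlinarith
  obtain ⟨hi, hii⟩ := COR_num hk hε hP1 hN1 hP1' hPN h
  rcases le_or_gt (N : ℝ) ((p : ℝ) ^ (1 - 1 / (2 * (k : ℝ)) - ε / 4)) with hN | hN
  · have hE := COR_E2 X Y
    refine (hF₁ p hp1 N X Y a b c d hN hX hY hdet hcX hcY hi ?_ χ hχ β hβ).trans ?_
    · refine le_trans ?_ hii
      rw [← hP] at hE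
      gcongr
    · gcongr
  · -- the trivial range
    have hbig : (p : ℝ) ^ (1 + ε / 2) ≤ P := by
      refine le_trans ?_ h
      have e1 : ((p : ℝ) ^ (1 - 1 / (2 * (k : ℝ)) - ε / 4)) ^ (2 / (2 * (k : ℝ) - 1)) ≤
          (N : ℝ) ^ (2 / (2 * (k : ℝ) - 1)) := Real.rpow_le_rpow (by positivity) hN.le (by positivity)
      refine le_trans ?_ (mul_le_mul_of_nonneg_left e1 (by positivity))
      rw [← Real.rpow_mul hP0.le, ← Real.rpow_add hP0]
      refine Real.rpow_le_rpow_of_exponent_le hP1.le ?_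
      have e2 : (1 - 1 / (2 * (k : ℝ)) - ε / 4) * (2 / (2 * (k : ℝ) - 1)) =
          1 / (k : ℝ) - ε / 2 * (1 / (2 * (k : ℝ) - 1)) := by
        field_simp
        ring
      rw [e2]
      have e3 : 1 / (2 * (k : ℝ) - 1) ≤ 1 := by
        rw [div_le_one h2k]
        linarith
      nlinarith
    refine (COR_tr hNp X Y a b c d hX hY hcX hcY χ β hβ ((p : ℝ) ^ (-(ε / 4)) * P) ?_).trans ?_
    · intro A B α β' hA hB hα hβ'
      refine (COR_triv χ hχ A B α β' hα hβ').trans ?_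
      rw [hA, hB, ← hP]
      have hP0' : 0 < P := by linarith
      have e1 : Real.sqrt p ≤ (p : ℝ) ^ (-(ε / 4)) * Real.sqrt P := by
        have e2 : Real.sqrt ((p : ℝ) ^ (1 + ε / 2)) ≤ Real.sqrt P := Real.sqrt_le_sqrt hbig
        have e3 : (p : ℝ) ^ (-(ε / 4)) * Real.sqrt ((p : ℝ) ^ (1 + ε / 2)) = Real.sqrt p := by
          rw [Real.sqrt_eq_rpow, Real.sqrt_eq_rpow, ← Real.rpow_mul hP0.le, ← Real.rpow_add hP0]
          congr 1
          ring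
        rw [← e3]
        exact mul_le_mul_of_nonneg_left e2 (by positivity)
      calc Real.sqrt p * Real.sqrt P ≤ ((p : ℝ) ^ (-(ε / 4)) * Real.sqrt P) * Real.sqrt P := by gcongr
        _ = (p : ℝ) ^ (-(ε / 4)) * P := by
          rw [mul_assoc, Real.mul_self_sqrt hP0'.le]
    · gcongr

end Pool.Agent.EIF
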