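import Pool.Agent.helper47.EIF.Spec
import Pool.Agent.helper41.SPI.MOB

/-!
# Project eif, row MOX: Moebius images
-/

set_option autoImplicit false

open Finset

namespace Pool.Agent.EIF

private theorem MOX_cast {p N : ℕ} (h : N ≤ p) {x y : ℕ} (hx : x < N) (hy : y < N)
    (e : (x : ZMod p) = (y : ZMod p)) : x = y := by
  rw [ZMod.natCast_eq_natCast_iff] at e
  exact Nat.ModEq.eq_of_lt_of_lt e (by omega) (by omega)

private theorem MOX_energy {p N : ℕ} (h : 2 * N ≤ p) (X Y : Finset ℕ) (hX : X ⊆ range N)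
    (hY : Y ⊆ range N) :
    (X.image fun x : ℕ => (x : ZMod p)).addEnergy (Y.image fun y : ℕ => -(y : ZMod p)) ≤ X.addEnergy Y := by
  unfold Finset.addEnergy
  refine (Finset.card_le_card (t := (((X ×ˢ X) ×ˢ Y ×ˢ Y).filter
    fun x : (ℕ × ℕ) × ℕ × ℕ => x.1.1 + x.2.1 = x.1.2 + x.2.2).image
      (fun q : (ℕ × ℕ) × ℕ × ℕ => (((q.1.1 : ZMod p), (q.1.2 : ZMod p)),
        (-(q.2.2 : ZMod p), -(q.2.1 : ZMod p))))) ?_).trans Finset.card_image_le
  intro q hq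
  simp only [mem_filter, mem_product, mem_image] at hq
  obtain ⟨⟨⟨⟨x₁, hx₁, e₁⟩, ⟨x₂, hx₂, e₂⟩⟩, ⟨y₁, hy₁, e₃⟩, ⟨y₂, hy₂, e₄⟩⟩, hs⟩ := hq
  rw [mem_image]
  refine ⟨((x₁, x₂), (y₂, y₁)), ?_, ?_⟩
  · simp only [mem_filter, mem_product]
    refine ⟨⟨⟨hx₁, hx₂⟩, hy₂, hy₁⟩, ?_⟩
    have k1 := mem_range.1 (hX hx₁)
    have k2 := mem_range.1 (hX hx₂)
    have k3 := mem_range.1 (hY hy₁)
    have k4 := mem_range.1 (hY hy₂)
    rw [← e₁, ← e₂, ← e₃, ← e₄] at hs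
    have h5 : ((x₁ + y₂ : ℕ) : ZMod p) = ((x₂ + y₁ : ℕ) : ZMod p) := by
      push_cast
      linear_combination hs
    exact MOX_cast h (by omega) (by omega) h5
  · simp only
    rw [e₁, e₂, e₃, e₄]

theorem MOX (hASM : ASM_stmt) : MOX_stmt := by
  intro k hk ε hε
  obtain ⟨δ, p₀, hδ, hF⟩ := hASM k hk ε hε
  refine ⟨δ, max p₀ ⌈(4 : ℝ) ^ (1 / ε)⌉₊, hδ, ?_⟩
  intro p _ hp N X Y a b c d hN hX hY hdet hcX hcY hi hii χ hχ β hβ
  have hpp : p.Prime := Fact.out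
  have hp1 : p₀ < p := (le_max_left _ _).trans_lt hp
  have hP1 : (1 : ℝ) < p := by exact_mod_cast hpp.one_lt
  have hP0 : (0 : ℝ) < p := by linarith
  have hp2 : (4 : ℝ) ^ (1 / ε) ≤ p := by
    have h1 : (⌈(4 : ℝ) ^ (1 / ε)⌉₊ : ℝ) ≤ p := by exact_mod_cast ((le_max_right _ _).trans_lt hp).le
    exact (Nat.le_ceil _).trans h1
  have h4N : 4 * N ≤ p := by
    have h1 : (4 : ℝ) ≤ (p : ℝ) ^ ε := by
      have h2 : ((4 : ℝ) ^ (1 / ε)) ^ ε ≤ (p : ℝ) ^ ε := Real.rpow_le_rpow (by positivity) hp2 hε.le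
      rw [← Real.rpow_mul (by norm_num)] at h2
      have h3 : 1 / ε * ε = 1 := by field_simp
      rwa [h3, Real.rpow_one] at h2
    have h2 : (N : ℝ) ≤ (p : ℝ) ^ (1 - ε) := by
      refine hN.trans (Real.rpow_le_rpow_of_exponent_le hP1.le ?_)
      have : 0 ≤ 1 / (2 * (k : ℝ)) := by positivity
      linarith
    have h3 : (4 : ℝ) * N ≤ p := by
      calc (4 : ℝ) * N ≤ (p : ℝ) ^ ε * (p : ℝ) ^ (1 - ε) := by gcongr
        _ = p := by
          rw [← Real.rpow_add hP0]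
          have : ε + (1 - ε) = 1 := by ring
          rw [this, Real.rpow_one]
    exact_mod_cast h3
  -- the sets
  set f : ℕ → ZMod p := fun x => (x : ZMod p) with hf
  set g : ℕ → ZMod p := fun y => -(y : ZMod p) with hg
  have hfi : Set.InjOn f (X : Set ℕ) := by
    intro x hx y hy e
    exact MOX_cast (by omega : N ≤ p) (mem_range.1 (hX hx)) (mem_range.1 (hX hy)) e
  have hgi : Set.InjOn g (Y : Set ℕ) := by
    intro x hx y hy e
    exact MOX_cast (by omega : N ≤ p) (mem_range.1 (hY hx)) (mem_range.1 (hY hy)) (neg_injective e)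
  have hAc : (X.image f).card = X.card := card_image_of_injOn hfi
  have hBc : (Y.image g).card = Y.card := card_image_of_injOn hgi
  have hval : ∀ x : ℕ, x < N → ((x : ZMod p).valMinAbs).natAbs ≤ N := by
    intro x hx
    rw [ZMod.valMinAbs_natCast_of_le_half (by omega)]
    simpa using hx.le
  have hA : ∀ z ∈ X.image f, z.valMinAbs.natAbs ≤ N := by
    intro z hz
    obtain ⟨x, hx, rfl⟩ := mem_image.1 hz
    exact hval x (mem_range.1 (hX hx))
  have hB : ∀ w ∈ Y.image g, w.valMinAbs.natAbs ≤ N := by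
    intro w hw
    obtain ⟨y, hy, rfl⟩ := mem_image.1 hw
    rw [hg]
    simp only
    rw [ZMod.natAbs_valMinAbs_neg]
    exact hval y (mem_range.1 (hY hy))
  have hEn := MOX_energy (p := p) (by omega : 2 * N ≤ p) X Y hX hY
  have hχ1 : ∀ x : ZMod p, ‖χ⁻¹ x‖ ≤ 1 := fun x => DirichletCharacter.norm_le_one χ⁻¹ x
  -- phases
  choose α hα1 hα2 using fun x : ℕ => Pool.Agent.SPI.MOB_phase (∑ y ∈ Y, β y *
    χ ((a * (x : ZMod p) + b) / (c * (x : ZMod p) + d) - (a * (y : ZMod p) + b) / (c * (y : ZMod p) + d)))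
  have main := hF p hp1 N (X.image f) (Y.image g) hN hA hB
    (by rw [hAc, hBc]; exact hi)
    (by
      rw [hAc, hBc]
      refine le_trans ?_ hii
      have : (((X.image f).addEnergy (Y.image g) : ℕ) : ℝ) ≤ (X.addEnergy Y : ℝ) := Nat.cast_le.2 hEn
      gcongr)
    χ hχ
    (fun z => α z.val * χ⁻¹ (c * z + d))
    (fun w => β (-w).val * χ⁻¹ (c * (-w) + d))
    (fun z => by
      rw [norm_mul]
      exact mul_le_one₀ (hα1 _) (norm_nonneg _) (hχ1 _))
    (fun w => by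
      rw [norm_mul]
      exact mul_le_one₀ (hβ _) (norm_nonneg _) (hχ1 _))
  rw [hAc, hBc] at main
  have hv : ∀ x : ℕ, x < N → ((x : ZMod p)).val = x := fun x hx => ZMod.val_natCast_of_lt (by omega)
  -- the sum
  have e1 : ((∑ x ∈ X, ‖∑ y ∈ Y, β y * χ ((a * (x : ZMod p) + b) / (c * (x : ZMod p) + d) -
      (a * (y : ZMod p) + b) / (c * (y : ZMod p) + d))‖ : ℝ) : ℂ) = χ (a * d - b * c) *
      ∑ z ∈ X.image f, ∑ w ∈ Y.image g,
        (fun z => α z.val * χ⁻¹ (c * z + d)) z * (fun w => β (-w).val * χ⁻¹ (c * (-w) + d)) w * χ (z + w) := by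
    rw [sum_image hfi, Complex.ofReal_sum, mul_sum]
    refine sum_congr rfl fun x hx => ?_
    rw [sum_image hgi, ← hα2 x, mul_sum, mul_sum]
    refine sum_congr rfl fun y hy => ?_
    rw [Pool.Agent.SPI.MOB_id χ a b c d _ _ (hcX x hx) (hcY y hy)]
    simp only [hf, hg, neg_neg]
    rw [hv x (mem_range.1 (hX hx)), hv y (mem_range.1 (hY hy)), ← sub_eq_add_neg]
    ring
  have e4 : (∑ x ∈ X, ‖∑ y ∈ Y, β y * χ ((a * (x : ZMod p) + b) / (c * (x : ZMod p) + d) -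
      (a * (y : ZMod p) + b) / (c * (y : ZMod p) + d))‖ : ℝ) =
      ‖((∑ x ∈ X, ‖∑ y ∈ Y, β y * χ ((a * (x : ZMod p) + b) / (c * (x : ZMod p) + d) -
      (a * (y : ZMod p) + b) / (c * (y : ZMod p) + d))‖ : ℝ) : ℂ)‖ := by
    rw [Complex.norm_real, Real.norm_of_nonneg (sum_nonneg fun _ _ => norm_nonneg _)]
  rw [e4, e1, norm_mul]
  refine le_trans ?_ main
  exact mul_le_of_le_one_left (norm_nonneg _) (DirichletCharacter.norm_le_one χ _)

end Pool.Agent.EIF
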