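import Pool.Agent.helper47.EIF.Spec

/-!
# Project eif, row WSL: the numbers in the inequality for short character sums
-/

set_option autoImplicit false

open Finset

namespace Pool.Agent.EIF

private theorem WSL_add {x y : ℝ} (hx : 0 ≤ x) (hy : 0 ≤ y) (m : ℕ) : x ^ (m + 1) + y ^ (m + 1) ≤ (x + y) ^ (m + 1) := by
  induction m with
  | zero => simp
  | succ m ih =>
    have h1 : 0 ≤ x * y ^ (m + 1) := by positivity
    have h2 : 0 ≤ y * x ^ (m + 1) := by positivity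
    calc x ^ (m + 1 + 1) + y ^ (m + 1 + 1) ≤ (x ^ (m + 1) + y ^ (m + 1)) * (x + y) := by
          rw [pow_succ x (m + 1), pow_succ y (m + 1)]
          linarith
      _ ≤ (x + y) ^ (m + 1) * (x + y) := by gcongr
      _ = _ := (pow_succ _ _).symm

/-- the logarithmic factor -/
private theorem WSL_log {p n k : ℕ} {κ : ℝ} (hp : 1 < p) (hκ : 0 < κ) (hn : (2 : ℝ) ^ n ≤ p) :
    (2 * ((n : ℝ) + 1)) ^ (2 * k + 1) ≤
      (4 * ((2 * k + 1 : ℕ) / κ) + 2) ^ (2 * k + 1) * (p : ℝ) ^ κ := by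
  have hP1 : (1 : ℝ) < p := by exact_mod_cast hp
  have hP0 : (0 : ℝ) < p := by linarith
  have hm0 : (0 : ℝ) < ((2 * k + 1 : ℕ) : ℝ) := by positivity
  set κ₁ : ℝ := κ / ((2 * k + 1 : ℕ) : ℝ) with hκ₁
  have hκ₁0 : 0 < κ₁ := by positivity
  have h1 : (n : ℝ) * Real.log 2 ≤ Real.log p := by
    have h3 := Real.log_le_log (by positivity) hn
    rwa [Real.log_pow] at h3
  have h2 : Real.log p ≤ (p : ℝ) ^ κ₁ / κ₁ := Real.log_le_rpow_div hP0.le hκ₁0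
  have hl2 : (1 : ℝ) / 2 ≤ Real.log 2 := by linarith [Real.log_two_gt_d9]
  have h4 : (n : ℝ) ≤ 2 * Real.log p := by
    have : (n : ℝ) * (1 / 2) ≤ (n : ℝ) * Real.log 2 := mul_le_mul_of_nonneg_left hl2 (by positivity)
    linarith
  have h5 : (1 : ℝ) ≤ (p : ℝ) ^ κ₁ := Real.one_le_rpow hP1.le hκ₁0.le
  have h6 : 2 * ((n : ℝ) + 1) ≤ (4 * ((2 * k + 1 : ℕ) / κ) + 2) * (p : ℝ) ^ κ₁ := by
    calc 2 * ((n : ℝ) + 1) ≤ 2 * (2 * ((p : ℝ) ^ κ₁ / κ₁) + 1) := by linarith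
      _ = 4 * (((2 * k + 1 : ℕ) : ℝ) / κ) * (p : ℝ) ^ κ₁ + 2 := by
          rw [hκ₁]
          field_simp
          ring
      _ ≤ _ := by nlinarith
  calc (2 * ((n : ℝ) + 1)) ^ (2 * k + 1) ≤ ((4 * ((2 * k + 1 : ℕ) / κ) + 2) * (p : ℝ) ^ κ₁) ^ (2 * k + 1) := by
        gcongr
    _ = (4 * ((2 * k + 1 : ℕ) / κ) + 2) ^ (2 * k + 1) * ((p : ℝ) ^ κ₁) ^ (2 * k + 1) := mul_pow _ _ _
    _ = _ := by
        congr 1
        rw [← Real.rpow_natCast, ← Real.rpow_mul hP0.le]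
        congr 1
        rw [hκ₁]
        field_simp

theorem WSL (hWSQ : WSQ_stmt) (hDIV : Pool.Agent.SPI.DIV_stmt) : WSL_stmt := by
  intro k hk κ hκ
  have hk0 : (0 : ℝ) < k := by exact_mod_cast hk
  have hkk : (1 : ℝ) ≤ k := by exact_mod_cast hk
  obtain ⟨C₀, hC₀, hD⟩ := hDIV κ hκ
  set K : ℝ := (k : ℝ) ^ (2 * k) + 2 * k with hK
  set L₁ : ℝ := (4 * ((2 * k + 1 : ℕ) / κ) + 2) ^ (2 * k + 1) with hL₁
  set M : ℝ := 2 ^ (2 * k) * 2 ^ k * K * L₁ * (10 ^ 4 + 4 * 10 ^ 5 * C₀) with hM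
  have hK0 : 0 < K := by positivity
  have hL₁0 : 0 < L₁ := by positivity
  have hM0 : 0 < M := by positivity
  refine ⟨M ^ (1 / (2 * (k : ℝ))), 1, by positivity, ?_⟩
  intro p _ hp χ hχ h S h4 h48
  have hpp : p.Prime := Fact.out
  have hP1 : (1 : ℝ) < p := by exact_mod_cast hpp.one_lt
  have hP0 : (0 : ℝ) < p := by linarith
  rcases S.eq_empty_or_nonempty with rfl | hS
  · rw [Finset.sum_empty]
    positivity
  have hs0 : (0 : ℝ) < S.card := by exact_mod_cast hS.card_pos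
  have hone : (1 : ℝ) ≤ (p : ℝ) ^ (1 / (2 * (k : ℝ))) := Real.one_le_rpow hP1.le (by positivity)
  have pw : ∀ x : ℝ, 0 ≤ x → (x ^ (1 / (2 * (k : ℝ)))) ^ (2 * k) = x := by
    intro x hx
    rw [← Real.rpow_natCast, ← Real.rpow_mul hx]
    have : 1 / (2 * (k : ℝ)) * ((2 * k : ℕ) : ℝ) = 1 := by
      push_cast
      field_simp
    rw [this, Real.rpow_one]
  obtain ⟨n, hn1, hn2⟩ := exists_nat_pow_near hone (by norm_num : (1 : ℝ) < 2)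
  have hVk : ((2 : ℝ) ^ n) ^ (2 * k) ≤ p := by
    calc ((2 : ℝ) ^ n) ^ (2 * k) ≤ ((p : ℝ) ^ (1 / (2 * (k : ℝ)))) ^ (2 * k) := by gcongr
      _ = p := pw _ hP0.le
  have hVk' : (2 ^ n) ^ (2 * k) ≤ p := by exact_mod_cast hVk
  have hVp : (2 : ℝ) ^ n ≤ p := by
    refine (le_self_pow₀ (one_le_pow₀ (by norm_num)) (by omega : 2 * k ≠ 0)).trans hVk
  have hh0 : (0 : ℝ) < h := by linarith
  have hhn : 4 * 2 ^ n ≤ h := by
    have : (4 : ℝ) * 2 ^ n ≤ h := by linarith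
    exact_mod_cast this
  set U : ℕ := h / (2 * 2 ^ n) with hU
  have hV0 : 0 < 2 ^ n := by positivity
  have hU2 : 2 ≤ U := by
    rw [hU, Nat.le_div_iff_mul_le (by positivity)]
    linarith
  have hU1 : 2 ^ n * (2 * U) ≤ h := by
    calc 2 ^ n * (2 * U) = 2 * 2 ^ n * U := by ring
      _ ≤ h := Nat.mul_div_le h _
  have hU3 : h ≤ 4 * 2 ^ n * U := by
    have h1 : h < 2 * 2 ^ n * (U + 1) := by
      rw [hU]
      exact Nat.lt_mul_div_succ h (by positivity)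
    have h2 : 2 * 2 ^ n * (U + 1) ≤ 2 * 2 ^ n * (2 * U) := Nat.mul_le_mul_left _ (by omega)
    calc h ≤ 2 * 2 ^ n * (2 * U) := h1.le.trans h2
      _ = _ := by ring
  have hUr0 : (0 : ℝ) < U := by
    have : 0 < U := by omega
    exact_mod_cast this
  have hU3r : (h : ℝ) ≤ 4 * 2 ^ n * U := by exact_mod_cast hU3
  set T : ℕ := ⌊C₀ * (p : ℝ) ^ κ⌋₊ with hT
  have hTr : (T : ℝ) ≤ C₀ * (p : ℝ) ^ κ := Nat.floor_le (by positivity)
  have hdiv : ∀ m : ℕ, 1 ≤ m → m ≤ p → m.divisors.card ≤ T := by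
    intro m hm1 hm2
    rw [hT]
    refine Nat.le_floor ?_
    refine (hD m hm1).trans ?_
    gcongr
  have hmain := hWSQ p χ hχ k h U n T S hk (by omega) hU1 h48 hVk' hdiv
  have hlog := WSL_log (k := k) hpp.one_lt hκ hVp
  rw [← hL₁] at hlog
  set V : ℝ := (2 : ℝ) ^ n with hV
  set W : ℝ := ∑ t ∈ S, Wc χ h t with hW
  set s : ℝ := (S.card : ℝ) with hs
  set L : ℝ := (2 * ((n : ℝ) + 1)) ^ (2 * k + 1) with hL
  have hV0r : 0 < V := by positivity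
  have hL0 : 0 ≤ L := by positivity
  have hW0 : 0 ≤ W := Finset.sum_nonneg fun t _ => norm_nonneg _
  -- simplify the right side of WSQ
  have e1 : (2 * (h : ℝ) * U * s) ^ (2 * k - 2) *
      (10 ^ 4 * (2 * (h : ℝ) * U * s) ^ 2 / p + 10 ^ 5 * T * (2 * h) * (2 * (h : ℝ) * U * s)) *
      (L * (K * V ^ k * p)) =
      (U * V) ^ (2 * k) * ((2 * (h * s)) ^ (2 * k) * (K * L) * ((10 ^ 4 + 10 ^ 5 * T * p / (U * s)) / V ^ k)) := by
    have hx : (2 * (h : ℝ) * U * s) ^ (2 * k - 2) * (2 * (h : ℝ) * U * s) ^ 2 = (2 * (h : ℝ) * U * s) ^ (2 * k) := by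
      rw [← pow_add]
      congr 1
      omega
    have hy : 10 ^ 4 * (2 * (h : ℝ) * U * s) ^ 2 / p + 10 ^ 5 * T * (2 * h) * (2 * (h : ℝ) * U * s) =
        (2 * (h : ℝ) * U * s) ^ 2 * ((10 ^ 4 + 10 ^ 5 * T * p / (U * s)) / p) := by
      field_simp
    have hx2 : ∀ Q R : ℝ, (2 * (h : ℝ) * U * s) ^ (2 * k - 2) * ((2 * (h : ℝ) * U * s) ^ 2 * Q) * R =
        (2 * (h : ℝ) * U * s) ^ (2 * k) * Q * R := by
      intro Q R
      rw [← hx]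
      ring
    rw [hy, hx2]
    have hz : (2 * (h : ℝ) * U * s) ^ (2 * k) = U ^ (2 * k) * (2 * (h * s)) ^ (2 * k) := by
      rw [← mul_pow]
      congr 1
      ring
    rw [hz, mul_pow (U : ℝ) V]
    have hVV : V ^ (2 * k) = V ^ k * V ^ k := by
      rw [← pow_add]
      congr 1
      ring
    rw [hVV]
    field_simp
  rw [e1, mul_pow ((U : ℝ) * V) W] at hmain
  have hdivd := le_of_mul_le_mul_left hmain (by positivity)
  -- bounds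
  have hVk2 : 1 / V ^ k ≤ 2 ^ k * (p : ℝ) ^ (-(1 / 2 : ℝ)) := by
    have h1 : (p : ℝ) ^ (1 / 2 : ℝ) ≤ 2 ^ k * V ^ k := by
      have h2 : ((p : ℝ) ^ (1 / (2 * (k : ℝ)))) ^ k = (p : ℝ) ^ (1 / 2 : ℝ) := by
        rw [← Real.rpow_natCast, ← Real.rpow_mul hP0.le]
        congr 1
        field_simp
      rw [← h2, ← mul_pow]
      refine pow_le_pow_left₀ (by positivity) ?_ _
      rw [hV]
      refine hn2.le.trans (le_of_eq ?_)
      rw [pow_succ]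
      ring
    rw [div_le_iff₀ (by positivity)]
    have h3 : (p : ℝ) ^ (-(1 / 2 : ℝ)) * (p : ℝ) ^ (1 / 2 : ℝ) = 1 := by
      rw [← Real.rpow_add hP0]
      simp
    calc (1 : ℝ) = (p : ℝ) ^ (-(1 / 2 : ℝ)) * (p : ℝ) ^ (1 / 2 : ℝ) := h3.symm
      _ ≤ (p : ℝ) ^ (-(1 / 2 : ℝ)) * (2 ^ k * V ^ k) := by gcongr
      _ = _ := by ring
  have hUinv : 1 / (U : ℝ) ≤ 4 * (p : ℝ) ^ (1 / (2 * (k : ℝ))) / h := by
    rw [div_le_div_iff₀ hUr0 hh0]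
    calc 1 * (h : ℝ) ≤ 4 * V * U := by
          rw [hV]
          linarith
      _ ≤ _ := by gcongr
  set a : ℝ := (p : ℝ) ^ (-(1 / 2 : ℝ)) with ha
  set b : ℝ := (p : ℝ) ^ (1 / 2 + 1 / (2 * (k : ℝ))) / (h * s) with hb
  have ha0 : 0 < a := by positivity
  have hb0 : 0 < b := by positivity
  have hPκ : (1 : ℝ) ≤ (p : ℝ) ^ κ := Real.one_le_rpow hP1.le hκ.le
  have hcore : (10 ^ 4 + 10 ^ 5 * T * p / (U * s)) / V ^ k ≤
      2 ^ k * ((10 ^ 4 + 4 * 10 ^ 5 * C₀) * (p : ℝ) ^ κ * (a + b)) := by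
    have h1 : 10 ^ 5 * (T : ℝ) * p / (U * s) ≤ 4 * 10 ^ 5 * C₀ * (p : ℝ) ^ κ * (p : ℝ) ^ (1 / 2 : ℝ) * b := by
      have e : 10 ^ 5 * (T : ℝ) * p / (U * s) = 10 ^ 5 * T * p / s * (1 / U) := by
        field_simp
      rw [e]
      have e2 : 4 * 10 ^ 5 * C₀ * (p : ℝ) ^ κ * (p : ℝ) ^ (1 / 2 : ℝ) * b =
          10 ^ 5 * (C₀ * (p : ℝ) ^ κ) * p / s * (4 * (p : ℝ) ^ (1 / (2 * (k : ℝ))) / h) := by
        have e3 : (p : ℝ) ^ (1 / 2 + 1 / (2 * (k : ℝ))) = (p : ℝ) ^ (1 / 2 : ℝ) * (p : ℝ) ^ (1 / (2 * (k : ℝ))) :=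
          Real.rpow_add hP0 _ _
        have e4 : (p : ℝ) ^ (1 / 2 : ℝ) * (p : ℝ) ^ (1 / 2 : ℝ) = p := by
          rw [← Real.rpow_add hP0]
          norm_num
        rw [hb, e3]
        calc 4 * 10 ^ 5 * C₀ * (p : ℝ) ^ κ * (p : ℝ) ^ (1 / 2 : ℝ) *
              ((p : ℝ) ^ (1 / 2 : ℝ) * (p : ℝ) ^ (1 / (2 * (k : ℝ))) / (h * s))
            = 10 ^ 5 * (C₀ * (p : ℝ) ^ κ) * ((p : ℝ) ^ (1 / 2 : ℝ) * (p : ℝ) ^ (1 / 2 : ℝ)) / s *
              (4 * (p : ℝ) ^ (1 / (2 * (k : ℝ))) / h) := by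
              field_simp
          _ = _ := by rw [e4]
      rw [e2]
      gcongr
    have h2 : a * (p : ℝ) ^ (1 / 2 : ℝ) = 1 := by
      rw [ha, ← Real.rpow_add hP0]
      simp
    calc (10 ^ 4 + 10 ^ 5 * T * p / (U * s)) / V ^ k = (10 ^ 4 + 10 ^ 5 * T * p / (U * s)) * (1 / V ^ k) := by ring
      _ ≤ (10 ^ 4 + 4 * 10 ^ 5 * C₀ * (p : ℝ) ^ κ * (p : ℝ) ^ (1 / 2 : ℝ) * b) * (2 ^ k * a) := by gcongr
      _ = 2 ^ k * (10 ^ 4 * a + 4 * 10 ^ 5 * C₀ * (p : ℝ) ^ κ * (a * (p : ℝ) ^ (1 / 2 : ℝ)) * b) := by ring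
      _ = 2 ^ k * (10 ^ 4 * a + 4 * 10 ^ 5 * C₀ * (p : ℝ) ^ κ * b) := by rw [h2, mul_one]
      _ ≤ 2 ^ k * (10 ^ 4 * (p : ℝ) ^ κ * (a + b) + 4 * 10 ^ 5 * C₀ * (p : ℝ) ^ κ * (a + b)) := by
        have h3 : 10 ^ 4 * a ≤ 10 ^ 4 * (p : ℝ) ^ κ * (a + b) := by
          calc 10 ^ 4 * a = 10 ^ 4 * 1 * (a + 0) := by ring
            _ ≤ _ := by gcongr
        have h4 : 4 * 10 ^ 5 * C₀ * (p : ℝ) ^ κ * b ≤ 4 * 10 ^ 5 * C₀ * (p : ℝ) ^ κ * (a + b) := by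
          have : b ≤ a + b := by linarith
          gcongr
        gcongr
      _ = _ := by ring
  have hfin : W ^ (2 * k) ≤ M * (p : ℝ) ^ (2 * κ) * (h * s) ^ (2 * k) * (a + b) := by
    have hPP : (p : ℝ) ^ (2 * κ) = (p : ℝ) ^ κ * (p : ℝ) ^ κ := by
      rw [← Real.rpow_add hP0]
      congr 1
      ring
    calc W ^ (2 * k) ≤ (2 * (h * s)) ^ (2 * k) * (K * L) * ((10 ^ 4 + 10 ^ 5 * T * p / (U * s)) / V ^ k) := hdivd
      _ ≤ (2 * (h * s)) ^ (2 * k) * (K * (L₁ * (p : ℝ) ^ κ)) *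
          (2 ^ k * ((10 ^ 4 + 4 * 10 ^ 5 * C₀) * (p : ℝ) ^ κ * (a + b))) := by gcongr
      _ = _ := by
        rw [hM, hPP, mul_pow (2 : ℝ)]
        ring
  -- roots
  refine le_of_pow_le_pow_left₀ (n := 2 * k) (by omega) (by positivity) ?_
  refine hfin.trans ?_
  have e2 : (M ^ (1 / (2 * (k : ℝ))) * (p : ℝ) ^ κ * (h * s) *
      ((p : ℝ) ^ (-(1 / (4 * (k : ℝ)))) + b ^ (1 / (2 * (k : ℝ))))) ^ (2 * k) =
      M * ((p : ℝ) ^ κ) ^ (2 * k) * (h * s) ^ (2 * k) *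
      ((p : ℝ) ^ (-(1 / (4 * (k : ℝ)))) + b ^ (1 / (2 * (k : ℝ)))) ^ (2 * k) := by
    rw [mul_pow, mul_pow, mul_pow, pw _ hM0.le]
  rw [e2]
  have h7 : a + b ≤ ((p : ℝ) ^ (-(1 / (4 * (k : ℝ)))) + b ^ (1 / (2 * (k : ℝ)))) ^ (2 * k) := by
    have h8 := WSL_add (x := (p : ℝ) ^ (-(1 / (4 * (k : ℝ))))) (y := b ^ (1 / (2 * (k : ℝ)))) (by positivity)
      (by positivity) (2 * k - 1)
    have h9 : 2 * k - 1 + 1 = 2 * k := by omega
    rw [h9, pw _ hb0.le] at h8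
    have h10 : ((p : ℝ) ^ (-(1 / (4 * (k : ℝ))))) ^ (2 * k) = a := by
      rw [← Real.rpow_natCast, ← Real.rpow_mul hP0.le, ha]
      congr 1
      push_cast
      field_simp
      norm_num
    rwa [h10] at h8
  have h11 : (p : ℝ) ^ (2 * κ) ≤ ((p : ℝ) ^ κ) ^ (2 * k) := by
    rw [← Real.rpow_natCast, ← Real.rpow_mul hP0.le]
    refine Real.rpow_le_rpow_of_exponent_le hP1.le ?_
    push_cast
    nlinarith
  gcongr

end Pool.Agent.EIF
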