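import Pool.Agent.helper47.EIF.Spec
import Pool.Agent.helper81.PJ.MAX
import Pool.Agent.helper68.PJ.NUG
import Pool.Agent.helper99.SPI.NUS
import Pool.Agent.helper48.SPI.GSI
import Pool.Agent.helper98.SPI.PLN
import Pool.Agent.helper92.PY2.HOL
import Pool.Agent.helper79.PY2.DIV
import Pool.Agent.helper30.EIF.MO0
import Pool.Agent.helper83.EIF.WSH
import Pool.Agent.helper73.EIF.WNU
import Pool.Agent.helper74.EIF.WSQ
import Pool.Agent.helper47.EIF.WSL
import Pool.Agent.helper1.EIF.EXA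
import Pool.Agent.helper1.EIF.PLE
import Pool.Agent.helper1.EIF.LEV
import Pool.Agent.helper47.EIF.ASM
import Pool.Agent.helper47.EIF.MOX
import Pool.Agent.helper47.EIF.COR

/-!
# Project eif (MP_f6e9a2_nt): assembly
-/

set_option autoImplicit false

open Finset

namespace Pool.Agent.EIF

theorem p_HOL : Pool.Agent.SPI.HOL_stmt := fun p _ f g k hk hf hg => Pool.Agent.PY2.HOL p f g k hk hf hg

theorem p_DIV : Pool.Agent.SPI.DIV_stmt := fun η hη => Pool.Agent.PY2.DIV η hη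

theorem p_WNU : WNU_stmt := WNU Pool.Agent.PJ.MAX (WSH Pool.Agent.PJ.MAX)

theorem p_WSQ : WSQ_stmt := WSQ Pool.Agent.PJ.MAX p_WNU MO0 Pool.Agent.PJ.NUG Pool.Agent.SPI.NUS p_HOL

theorem p_WSL : WSL_stmt := WSL p_WSQ p_DIV

theorem p_ASM : ASM_stmt := ASM p_WSL (EXA Pool.Agent.SPI.GSI) (PLE Pool.Agent.SPI.PLN) LEV

theorem p_MOX : MOX_stmt := MOX p_ASM

theorem p_COR : COR_stmt := COR p_MOX

end Pool.Agent.EIF
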