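import Mathlib
import Pool.Agent.helper81.PJ.Spec

/-!
# Project eif (MP_f6e9a2_nt, Paley graph conjecture): ALL subsets of an interval, explicit exponents

THEOREM (`MOX_stmt`): for `k ≥ 1`, `ε > 0` there are `δ > 0`, `p₀`: for primes `p > p₀`, `N ≤ p^(1-1/(2k)-ε)`, ALL
`X, Y ⊆ {0,..,N-1}` and every Moebius `g x = (a x + b)/(c x + d)`, `χ ≠ 1`, `|β| ≤ 1`: if
(i) `|X| |Y| ≥ p^(1-1/(2k)+ε)`,  (ii) `N E(X,Y) p^(k-3/2+1/(2k)+ε) ≤ (|X| |Y|)^(k+1)` (`E` the additive energy), then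
`∑_(x ∈ X) |∑_(y ∈ Y) β_y χ(g x - g y)| ≤ p^(-δ) |X| |Y|`.
As `E ≤ (|X||Y|)^(3/2)`: every `|X| |Y| ≥ p^(1-1/k+ε) N^(2/(2k-1))`.  `N = p^(1/2)`, `k = 2`: `|X| |Y| ≥ p^(5/6+ε)`, i.e.
sizes `p^(5/12+ε)` (Friedlander-Iwaniec: `p^(9/20+ε)`), and `p^(3/8+ε)` for generic `X, Y` (`E ~ (|X||Y|)^2/N`).

PROOF.  `A = X`, `B = -Y`, `χ(a+b)`.  `D(n) = (1/h) ∑_(v<h) ψ(-v n)`, `h = p^(1-κ)/N`: `|D(a+b) - 1| ≤ 4 π h N/p`.  Gauss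
sum inversion: `h τ ∑ α_a β_b D(a+b) χ(a+b) = ∑_t (∑_(v<h) χ⁻¹(t+v)) f(t) g(t)`, `f, g` the Fourier transforms (EXA).
`G = |f g|`: `∑ G ≤ p (|A||B|)^(1/2)`, `∑ G² ≤ p E(A,B)`, `G ≤ |A||B|` (PLE).  The short sums: Burgess shift `v → v - m u`,
`u ~ U`, `m < V = p^(1/(2k))`, `U V ~ h`: only the points `(t+m')/u` appear; their energy is that of SPI (NUG), `2k`-th
moment by Weil (MO0): for EVERY set `S`: `∑_(t ∈ S) |∑_(v<h) χ(t+v)| ≤ p^κ h |S| (p^(-1/(4k)) +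
(p^(1/2+1/(2k))/(h |S|))^(1/(2k)))` (WSL).  Level sets of `G` (LEV).

RULES.  Row `X`: file `Pool/Agent/<seat>/EIF/X.lean`, `import Pool.Agent.helper47.EIF.Spec`, namespace `Pool.Agent.EIF`,
`open Finset`, `theorem X (h1 : Y_stmt) ... : X_stmt` (only the rows named after (from ...), in this order; rows of
other projects enter as hypotheses with their full name, e.g. `(hMAX : Pool.Agent.PJ.MAX_stmt)`).  Auxiliary lemmas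
prefixed `X_`.  No double quotes, no native_decide, no convert / congr!.
-/

set_option autoImplicit false

open Finset

namespace Pool.Agent.EIF

/-- `χ(x-v)` -/
noncomputable def c0 {p : ℕ} (χ : MulChar (ZMod p) ℂ) (x : ZMod p) (v : ℕ) : ℂ := χ (x - (v : ZMod p))

/-- `|∑_(v<h) χ(t+v)|` -/
noncomputable def Wc {p : ℕ} (χ : MulChar (ZMod p) ℂ) (h : ℕ) (t : ZMod p) : ℝ :=
  ‖∑ v ∈ range h, χ (t + (v : ZMod p))‖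

/-! ### Short character sums on an arbitrary set of starting points -/

/-- **MO0** (short-medium; copy of `Pool/Agent/helper78/PJ/MO2.lean` with `moment_one` of
`Pool/Agent/helper82/Weil/M.lean` instead of `moment_two`).  `mj^(2k) = (2(n+1))^(2k) Qd`; each of the `2^(n-l)` blocks of
level `l`: `∑_x ‖∑_(v<2^l) χ(x - i 2^l - v)‖^(2k) ≤ k^(2k) (2^l)^k p + (2^l)^(2k) 2 k √p` (`A = {-v : v < 2^l}`,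
`2^l ≤ p`); `2^(n-l) (2^l)^k ≤ (2^n)^k`, `2^(n-l) (2^l)^(2k) ≤ (2^n)^(2k)`; `n + 1` levels. -/
def MO0_stmt : Prop := ∀ (p : ℕ) [Fact p.Prime] (χ : MulChar (ZMod p) ℂ), χ ≠ 1 → ∀ k n : ℕ, 0 < k →
  2 ^ n ≤ p → ∑ x : ZMod p, Pool.Agent.PJ.mj k n (c0 χ x) ^ (2 * k) ≤
    (2 * ((n : ℝ) + 1)) ^ (2 * k + 1) * ((k : ℝ) ^ (2 * k) * ((2 : ℝ) ^ n) ^ k * p +
      ((2 : ℝ) ^ n) ^ (2 * k) * (2 * k * Real.sqrt p))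

/-- **WSH** (medium; from `Pool.Agent.PJ.MAX_stmt`; copy of `Pool/Agent/helper39/PJ/SH2.lean`).  `F i = χ(t+i)`.  For
each `v < 2^n`: `∑_(i<h) F i = ∑_(m : v u ≤ m < h + v u) F(m - v u)`, `m < 2 h`, and `F(m - v u) = χ(u) c0 χ ((t+m)/u) v`,
`|χ(u)| = 1`.  Exchange the sums; for each `m < 2 h` the set of the `v < 2^n` with `v u ≤ m < h + v u` is order convex. -/
def WSH_stmt : Prop := ∀ (p : ℕ) [Fact p.Prime] (χ : MulChar (ZMod p) ℂ) (k h n u : ℕ) (t : ZMod p), 0 < k →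
  1 ≤ u → u < p → 2 ^ n * u ≤ h →
  (2 : ℝ) ^ n * Wc χ h t ≤
    ∑ m ∈ range (2 * h), Pool.Agent.PJ.mj k n (c0 χ ((t + (m : ZMod p)) / (u : ZMod p)))

/-- **WNU** (medium; from `Pool.Agent.PJ.MAX_stmt`, WSH).  Sum WSH over `t ∈ S` and `u ∈ (U, 2U]`;
`∑_(t ∈ S) ∑_(m<2h) g((t+m)/u) = ∑_x #{(t,m) : t + m = u x} g x` (`u ≠ 0` in `ZMod p`).  (MAX only for `mj ≥ 0`.) -/
def WNU_stmt : Prop := ∀ (p : ℕ) [Fact p.Prime] (χ : MulChar (ZMod p) ℂ) (k h U n : ℕ) (S : Finset (ZMod p)), 0 < k →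
  2 * U < p → 2 ^ n * (2 * U) ≤ h →
  (U : ℝ) * (2 : ℝ) ^ n * ∑ t ∈ S, Wc χ h t ≤
    ∑ x : ZMod p, (Pool.Agent.SPI.nu S (2 * h) U x : ℝ) * Pool.Agent.PJ.mj k n (c0 χ x)

/-- **WSQ** (medium; from `Pool.Agent.PJ.MAX_stmt`, WNU, MO0, `Pool.Agent.PJ.NUG_stmt`, `Pool.Agent.SPI.NUS_stmt`,
`Pool.Agent.SPI.HOL_stmt`).  HOL for `f = nu S (2h) U`, `g = mj k n (c0 χ ·)`; NUS: `∑ nu = |S| 2h U`; NUG with the cells of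
length `2h` and `D = 2h` (a cell has at most `2h` points); MO0, and `(2^n)^(2k) √p ≤ (2^n)^k p` as `(2^n)^(2k) ≤ p`. -/
def WSQ_stmt : Prop := ∀ (p : ℕ) [Fact p.Prime] (χ : MulChar (ZMod p) ℂ), χ ≠ 1 → ∀ (k h U n T : ℕ)
  (S : Finset (ZMod p)), 0 < k → 0 < U → 2 ^ n * (2 * U) ≤ h → 48 * h ≤ p → (2 ^ n) ^ (2 * k) ≤ p →
  (∀ m : ℕ, 1 ≤ m → m ≤ p → m.divisors.card ≤ T) →
  ((U : ℝ) * (2 : ℝ) ^ n * ∑ t ∈ S, Wc χ h t) ^ (2 * k) ≤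
    (2 * (h : ℝ) * U * S.card) ^ (2 * k - 2) *
      (10 ^ 4 * (2 * (h : ℝ) * U * S.card) ^ 2 / p + 10 ^ 5 * T * (2 * h) * (2 * (h : ℝ) * U * S.card)) *
      ((2 * ((n : ℝ) + 1)) ^ (2 * k + 1) * (((k : ℝ) ^ (2 * k) + 2 * k) * ((2 : ℝ) ^ n) ^ k * p))

/-- **WSL** (medium, numeric; from WSQ, `Pool.Agent.SPI.DIV_stmt`).  `S = ∅`: trivial.  `n` with
`2^n ≤ p^(1/(2k)) < 2 2^n`, `U = h / (2 2^n) ≥ h / (4 2^n)` (`h ≥ 4 p^(1/(2k)) ≥ 4 2^n`), `T = ⌊C p^(κ/2)⌋` (DIV),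
`(n+1)^(2k+1) ≤ p^(κ/2)` for large `p` (`2^n ≤ p`).  WSQ, divided by `(U 2^n)^(2k)`, `(2^n)^(-k) ≤ 2^k p^(-1/2)`,
`1/U ≤ 4 p^(1/(2k))/h`: `(∑ Wc)^(2k) ≤ C' p^κ (h |S|)^(2k) (p^(-1/2) + p^(1/2+1/(2k)) / (h |S|))`; take the
`2k`-th root, `(x+y)^(1/(2k)) ≤ x^(1/(2k)) + y^(1/(2k))`. -/
def WSL_stmt : Prop := ∀ k : ℕ, 0 < k → ∀ κ : ℝ, 0 < κ → ∃ (C : ℝ) (p₀ : ℕ), 0 < C ∧
  ∀ (p : ℕ) [Fact p.Prime], p₀ < p → ∀ χ : MulChar (ZMod p) ℂ, χ ≠ 1 → ∀ (h : ℕ) (S : Finset (ZMod p)),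
    4 * (p : ℝ) ^ (1 / (2 * (k : ℝ))) ≤ h → 48 * h ≤ p →
    ∑ t ∈ S, Wc χ h t ≤ C * (p : ℝ) ^ κ * (h * S.card) *
      ((p : ℝ) ^ (-(1 / (4 * (k : ℝ)))) +
        ((p : ℝ) ^ (1 / 2 + 1 / (2 * (k : ℝ))) / (h * S.card)) ^ (1 / (2 * (k : ℝ))))

/-! ### The Fourier side -/

/-- **EXA** (medium; from `Pool.Agent.SPI.GSI_stmt`).  `D n = (1/h) ∑_(v<h) ψ(-v n)`.  (1) For `n = a + b`:
`n` is the class of the integer `j = a.valMinAbs + b.valMinAbs`, `|j| ≤ 2 N`, so `|ψ(-v n) - 1| ≤ 2 π v 2 N / p`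
(see `Pool/Agent/helper55/SPI/SMO.lean`), `|D n - 1| ≤ 4 π h N / p`.  (2) `h τ ∑_(a,b) α_a β_b D(a+b) χ(a+b) =
∑_(a,b) α_a β_b ∑_(v<h) ∑_t χ⁻¹(t) ψ((t-v)(a+b)) = ∑_t (∑_(v<h) χ⁻¹(t+v)) ft A α t * ft B β t` (`t → t + v`). -/
def EXA_stmt : Prop := ∀ (p : ℕ) [Fact p.Prime] (χ : MulChar (ZMod p) ℂ), χ ≠ 1 → ∀ (h N : ℕ)
  (A B : Finset (ZMod p)) (α β : ZMod p → ℂ), 0 < h → (∀ a ∈ A, a.valMinAbs.natAbs ≤ N) →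
  (∀ b ∈ B, b.valMinAbs.natAbs ≤ N) → (∀ a, ‖α a‖ ≤ 1) → (∀ b, ‖β b‖ ≤ 1) →
    h * Real.sqrt p * ‖∑ a ∈ A, ∑ b ∈ B, α a * β b * χ (a + b)‖ ≤
      ∑ t : ZMod p, (‖Pool.Agent.SPI.ft A α t‖ * ‖Pool.Agent.SPI.ft B β t‖) * Wc χ⁻¹ h t +
        h * Real.sqrt p * (4 * Real.pi * h * N / p * (A.card * B.card))

/-- **PLE** (medium; from `Pool.Agent.SPI.PLN_stmt`).  (1) Cauchy-Schwarz over `t` and PLN.  (2) trivial bounds.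
(3) `ft A α t * ft B β t = ft univ c t`, `c n = ∑_((a,b) ∈ A × B, a + b = n) α a * β b`, `|c n| ≤ r n = #{(a,b) : a + b = n}`;
PLN: `∑_t |..|² = p ∑ |c n|² ≤ p ∑ (r n)²`, and `∑ (r n)² = E(A, B)` (`Finset.addEnergy`). -/
def PLE_stmt : Prop := ∀ (p : ℕ) [Fact p.Prime] (A B : Finset (ZMod p)) (α β : ZMod p → ℂ), (∀ a, ‖α a‖ ≤ 1) →
  (∀ b, ‖β b‖ ≤ 1) →
    ∑ t : ZMod p, ‖Pool.Agent.SPI.ft A α t‖ * ‖Pool.Agent.SPI.ft B β t‖ ≤ p * Real.sqrt (A.card * B.card) ∧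
    (∀ t : ZMod p, ‖Pool.Agent.SPI.ft A α t‖ * ‖Pool.Agent.SPI.ft B β t‖ ≤ A.card * B.card) ∧
    ∑ t : ZMod p, (‖Pool.Agent.SPI.ft A α t‖ * ‖Pool.Agent.SPI.ft B β t‖) ^ 2 ≤ p * (A.addEnergy B : ℝ)

/-- **LEV** (medium; level sets).  `S_i = {t : P₀/2^(i+1) < G t ≤ P₀/2^i}` for `i < I`; elsewhere `G ≤ P₀/2^I`
(and `∑ W ≤ p h`).  With `l = P₀/2^i`: `∑_(t ∈ S_i) G W ≤ l (c₁ |S_i| + c₂ |S_i|^(1-1/(2k)))`, `l |S_i| ≤ 2 M₁`,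
`l² |S_i| ≤ 4 M₂`, `l |S_i|^(1-1/(2k)) = (l |S_i|)^(1-1/k) (l² |S_i|)^(1/(2k)) ≤ 4 M₁^(1-1/k) M₂^(1/(2k))`
(`S_i` empty or `P₀ = 0`: trivial). -/
def LEV_stmt : Prop := ∀ (p : ℕ) [NeZero p] (G W : ZMod p → ℝ) (k I : ℕ) (h c₁ c₂ M₁ M₂ P₀ : ℝ), 0 < k →
  0 ≤ c₁ → 0 ≤ c₂ → 0 ≤ M₁ → 0 ≤ M₂ → (∀ t, 0 ≤ G t) → (∀ t, G t ≤ P₀) → (∀ t, 0 ≤ W t) → (∀ t, W t ≤ h) →
  ∑ t, G t ≤ M₁ → ∑ t, G t ^ 2 ≤ M₂ →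
  (∀ S : Finset (ZMod p), S.Nonempty →
    ∑ t ∈ S, W t ≤ c₁ * S.card + c₂ * (S.card : ℝ) ^ (1 - 1 / (2 * (k : ℝ)))) →
  ∑ t, G t * W t ≤ I * (2 * c₁ * M₁ + 4 * c₂ * (M₁ ^ (1 - 1 / (k : ℝ)) * M₂ ^ (1 / (2 * (k : ℝ))))) +
    P₀ / 2 ^ I * (p * h)

/-! ### Numbers and the theorem -/

/-- **ASM** (medium, numeric; from WSL, EXA, PLE, LEV).  We may assume `ε ≤ 1/2`.  `κ = ε/(16 k)`, `P = |A||B|`,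
`h = ⌊p^(1-κ)/N⌋` (`N ≥ 1` by (i)), `h ≥ p^(1-κ)/(2N) ≥ 4 p^(1/(2k))`, `48 h ≤ p`.  WSL for `χ⁻¹` (`≠ 1`):
`c₁ = C p^κ h p^(-1/(4k))`, `c₂ = C p^κ h (p^(1/2+1/(2k))/h)^(1/(2k))`.  PLE: `M₁ = p P^(1/2)`, `M₂ = p E`,
`P₀ = P ≤ p²`, `2^I ≥ p²`, `I ≤ p^κ` for large `p`.  EXA and LEV, divided by `h p^(1/2)`:
`p^(2κ) p^(1/2-1/(4k)) P^(1/2) ≤ p^(2κ-ε/2) P` by (i); the `2k`-th power of the second term is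
`(C I p^κ)^(2k) 2 N E P^(k-1) p^(k-3/2+1/(2k)+κ) ≤ .. p^(κ-ε) P^(2k)` by (ii); the third: `p^(1/2) ≤ p^(-ε/2) P` by (i);
the fourth: `4 π p^(-κ) P`.  `δ = κ/2`. -/
def ASM_stmt : Prop := ∀ k : ℕ, 0 < k → ∀ ε : ℝ, 0 < ε → ∃ (δ : ℝ) (p₀ : ℕ), 0 < δ ∧
  ∀ (p : ℕ) [Fact p.Prime], p₀ < p → ∀ (N : ℕ) (A B : Finset (ZMod p)),
    (N : ℝ) ≤ (p : ℝ) ^ (1 - 1 / (2 * (k : ℝ)) - ε) →
    (∀ a ∈ A, a.valMinAbs.natAbs ≤ N) → (∀ b ∈ B, b.valMinAbs.natAbs ≤ N) →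
    (p : ℝ) ^ (1 - 1 / (2 * (k : ℝ)) + ε) ≤ A.card * B.card →
    (N : ℝ) * A.addEnergy B * (p : ℝ) ^ ((k : ℝ) - 3 / 2 + 1 / (2 * (k : ℝ)) + ε) ≤
      ((A.card : ℝ) * B.card) ^ (k + 1) →
    ∀ χ : MulChar (ZMod p) ℂ, χ ≠ 1 → ∀ α β : ZMod p → ℂ, (∀ a, ‖α a‖ ≤ 1) → (∀ b, ‖β b‖ ≤ 1) →
      ‖∑ a ∈ A, ∑ b ∈ B, α a * β b * χ (a + b)‖ ≤ (p : ℝ) ^ (-δ) * (A.card * B.card)

/-- **MOX** (medium; from ASM; the theorem).  Phases (`Pool/Agent/helper41/SPI/MOB.lean`, `MOB_phase`):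
`∑_x ‖∑_y β_y χ(g x - g y)‖ = ‖∑_x ∑_y α_x β_y χ(g x - g y)‖`, and `g x - g y = (ad-bc)(x-y)/((cx+d)(cy+d))`.  `A` = the
classes of `X`, `B` = the classes of `-Y` (injective, as `N ≤ p/4` for large `p`; `|valMinAbs| ≤ N`), and
`A.addEnergy B = X.addEnergy Y`: `x₁ - y₁ = x₂ - y₂` in `ZMod p` iff in `ℤ` (`4 N ≤ p`), i.e. `x₁ + y₂ = x₂ + y₁`
(swap `y₁, y₂`).  ASM. -/
def MOX_stmt : Prop := ∀ k : ℕ, 0 < k → ∀ ε : ℝ, 0 < ε → ∃ (δ : ℝ) (p₀ : ℕ), 0 < δ ∧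
  ∀ (p : ℕ) [Fact p.Prime], p₀ < p → ∀ (N : ℕ) (X Y : Finset ℕ) (a b c d : ZMod p),
    (N : ℝ) ≤ (p : ℝ) ^ (1 - 1 / (2 * (k : ℝ)) - ε) → X ⊆ range N → Y ⊆ range N → a * d - b * c ≠ 0 →
    (∀ x ∈ X, c * (x : ZMod p) + d ≠ 0) → (∀ y ∈ Y, c * (y : ZMod p) + d ≠ 0) →
    (p : ℝ) ^ (1 - 1 / (2 * (k : ℝ)) + ε) ≤ X.card * Y.card →
    (N : ℝ) * X.addEnergy Y * (p : ℝ) ^ ((k : ℝ) - 3 / 2 + 1 / (2 * (k : ℝ)) + ε) ≤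
      ((X.card : ℝ) * Y.card) ^ (k + 1) →
    ∀ χ : MulChar (ZMod p) ℂ, χ ≠ 1 → ∀ β : ℕ → ℂ, (∀ y, ‖β y‖ ≤ 1) →
      ∑ x ∈ X, ‖∑ y ∈ Y, β y * χ ((a * (x : ZMod p) + b) / (c * (x : ZMod p) + d) -
        (a * (y : ZMod p) + b) / (c * (y : ZMod p) + d))‖ ≤ (p : ℝ) ^ (-δ) * (X.card * Y.card)

end Pool.Agent.EIF
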